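import Pool.Agent.R404.WZ.P

/-!
# Small relations are consequences of the stuffle product: ring homomorphisms, expansions
-/

set_option autoImplicit false

namespace Pool.Agent.R404.WZ

open Finset
open Pool.Agent.Y760.ZG (mz)
open Pool.Agent.Y777.AM (ht)
open Pool.Agent.Y760.ZF (sti stil)
open Pool.Agent.Y777.AM.St (Ad)

lemma Ad_ar {N J : ℕ} (hN : 2 ≤ N) {w : Wd} (hw : w ≠ [] ∧ ∀ y ∈ w, 1 ≤ y.1 ∧ y.2 ≤ J) :
    Ad (ar N w) := by
  cases w with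
  | nil => exact absurd rfl hw.1
  | cons y w =>
    rw [ar_cons]
    refine ⟨?_, fun t ht => ?_⟩
    · have h1 := (hw.2 y List.mem_cons_self).1
      have h2 : N ≤ y.1 * N := Nat.le_mul_of_pos_left _ h1
      omega
    · unfold ar at ht
      obtain ⟨z, hz, rfl⟩ := List.mem_map.1 ht
      have h1 := (hw.2 z (List.mem_cons_of_mem _ hz)).1
      have h2 : N ≤ z.1 * N := Nat.le_mul_of_pos_left _ h1
      omega

/-- **the kernel of a period map** -/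
theorem polyC (D : ℕ) (θ γ ε κ C : ℝ) (hθ : 0 < θ) (hθD : (D + 1) * θ < 1)
    (hγ : γ + D * θ < 1) (hε : D * θ < ε) :
    ∃ N0 : ℕ, ∀ N : ℕ, N0 ≤ N → ∀ J : ℕ, (J : ℝ) ≤ (N : ℝ) ^ θ →
      ∀ f : MvPolynomial Wd ℤ, (∀ m ∈ f.support,
        (∀ w ∈ m.support, w ≠ [] ∧ ∀ y ∈ w, 1 ≤ y.1 ∧ y.2 ≤ J) ∧
        ∑ w ∈ m.support, m w * wt w ≤ D) →
      ∑ m ∈ f.support, |((f.coeff m : ℤ) : ℝ)| ≤ (2 : ℝ) ^ ((N : ℝ) ^ γ) →
      ∀ H : Finset (List ℕ), (∀ h ∈ H, (∀ m ∈ h, 1 ≤ m) ∧ (∀ x ∈ h.head?, 2 ≤ x) ∧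
        (h.sum : ℝ) ≤ κ * N ∧ ε * N ≤ ht h) → ∀ b : List ℕ → ℝ, (∀ h ∈ H, |b h| ≤ C ^ N) →
      ∀ (A : Type) [CommRing A] (Z : List ℕ → A) (p : A →+* ℂ),
        (∀ u v, Ad u → Ad v → Z u * Z v = ((sti u v).map Z).sum) →
        (∀ u, Ad u → p (Z u) = (mz u : ℂ)) →
      ‖p (MvPolynomial.aeval (fun w => Z (ar N w)) f) - ((∑ h ∈ H, b h * mz h : ℝ) : ℂ)‖ ≤
        ((N : ℝ) ^ (ε * N))⁻¹ →
      MvPolynomial.aeval (fun w => Z (ar N w)) f = 0 := by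
  obtain ⟨N0, h0⟩ := poly D θ γ ε κ C hθ hθD hγ hε
  refine ⟨max N0 2, fun N hN J hJ f hf hfC H hH b hb A _ Z p hZ hp hsmall => ?_⟩
  have hN2 : 2 ≤ N := by omega
  have e1 : p (MvPolynomial.aeval (fun w => Z (ar N w)) f) =
      ((MvPolynomial.aeval (fun w => mz (ar N w)) f : ℝ) : ℂ) := by
    rw [ml_aeval, ml_aeval, map_sum]
    push_cast
    refine Finset.sum_congr rfl fun m hm => ?_
    rw [map_mul, map_intCast, map_list_prod, List.map_map]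
    congr 2
    have e2 : ∀ L : List Wd, ((L.map fun w => mz (ar N w)).prod : ℝ) = ((L.map fun w =>
        ((mz (ar N w) : ℝ) : ℂ)).prod : ℂ) := by
      intro L
      induction L with
      | nil => simp
      | cons a L ih => rw [List.map_cons, List.prod_cons, List.map_cons, List.prod_cons, ← ih]; simp
    rw [e2]
    congr 1
    refine List.map_congr_left fun w hw => ?_
    rw [Function.comp_apply]
    exact hp _ (Ad_ar hN2 ((hf m hm).1 w (mem_ml hw)))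
  rw [e1, ← Complex.ofReal_sub, Complex.norm_real, Real.norm_eq_abs] at hsmall
  exact (h0 N (by omega) J hJ f hf hfC H hH b hb hsmall).2 A Z hZ

/-- **the expansions vanish** -/
theorem expansions (D : ℕ) (θ γ ε κ C : ℝ) (hθ : 0 < θ) (hθD : (D + 1) * θ < 1)
    (hγ : γ + D * θ < 1) (hε : D * θ < ε) :
    ∃ N0 : ℕ, ∀ N : ℕ, N0 ≤ N → ∀ J : ℕ, (J : ℝ) ≤ (N : ℝ) ^ θ →
      ∀ T : Finset (List Wd),
      (∀ M ∈ T, (∀ u ∈ M, u ≠ [] ∧ ∀ y ∈ u, 1 ≤ y.1 ∧ y.2 ≤ J) ∧ (M.map wt).sum ≤ D) →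
      ∀ c : List Wd → ℤ, ∑ M ∈ T, |(c M : ℝ)| ≤ (2 : ℝ) ^ ((N : ℝ) ^ γ) →
      ∀ H : Finset (List ℕ), (∀ h ∈ H, (∀ m ∈ h, 1 ≤ m) ∧ (∀ x ∈ h.head?, 2 ≤ x) ∧
        (h.sum : ℝ) ≤ κ * N ∧ ε * N ≤ ht h) → ∀ b : List ℕ → ℝ, (∀ h ∈ H, |b h| ≤ C ^ N) →
      |∑ M ∈ T, (c M : ℝ) * (M.map fun u => mz (ar N u)).prod - ∑ h ∈ H, b h * mz h| ≤
        ((N : ℝ) ^ (ε * N))⁻¹ →
      ∀ u : List ℕ, ∑ M ∈ T, c M * ((stil (M.map (ar N))).count u : ℤ) = 0 := by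
  classical
  obtain ⟨N0, h0⟩ := transfer D θ γ ε κ C hθ hθD hγ hε
  refine ⟨N0, fun N hN J hJ T hT c hc H hH b hb hsmall u => ?_⟩
  obtain ⟨h1, -, -⟩ := h0 N hN J hJ (List Wd) T id hT c hc H hH b hb hsmall
  have e1 : ∀ L : List Wd, ((L.map (ar N)).count u : ℤ) =
      (L.map fun v => if ar N v = u then (1 : ℤ) else 0).sum := by
    intro L
    induction L with
    | nil => simp
    | cons a L ih =>
      rw [List.map_cons, List.count_cons, List.map_cons, List.sum_cons, ← ih]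
      by_cases h : ar N a = u
      · simp [h]
        ring
      · simp [h]
  have e2 : ∀ M ∈ T, c M * ((stil (M.map (ar N))).count u : ℤ) =
      ∑ v ∈ Wo T id, c M * ((swl M).countP (· = v) : ℤ) * (if ar N v = u then (1 : ℤ) else 0) := by
    intro M hM
    rw [← swl_ar, e1, list_countW (A := ℤ) (swl M) _ (Wo T id)
      (fun v hv => mem_biUnion.2 ⟨M, hM, List.mem_toFinset.2 hv⟩), mul_sum]
    exact sum_congr rfl fun v _ => by rw [mul_assoc]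
  rw [sum_congr rfl e2, sum_comm]
  refine sum_eq_zero fun v hv => ?_
  rw [← sum_mul]
  have e3 := h1 v hv
  unfold Co at e3
  simp only [id] at e3
  rw [e3, zero_mul]

end Pool.Agent.R404.WZ
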