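import Mathlib
import Pool.Agent.Y760.ZG.Mz

/-!
# Multiple zeta values with all arguments near multiples of `N`: combinatorics of the coefficients
-/

set_option autoImplicit false

namespace Pool.Agent.R404.WZ

open Finset
open Pool.Agent.Y760.ZG (hr hr_nil hr_cons mz hr_nonneg hr_le)

/-- the letter `(a, b)` stands for the argument `a N + b` -/
abbrev Wd := List (ℕ × ℕ)

/-- the arguments -/
def ar (N : ℕ) (w : Wd) : List ℕ := w.map fun y => y.1 * N + y.2

/-- the sum of the multiples -/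
def wt (w : Wd) : ℕ := (w.map Prod.fst).sum

/-- truncated sums without the unit -/
noncomputable def h2 : List ℕ → ℕ → ℝ
  | [], _ => 1
  | a :: l, m => ∑ j ∈ Finset.Ico 2 m, h2 l j / (j : ℝ) ^ a

lemma h2_nil (m : ℕ) : h2 [] m = 1 := by rw [h2]
lemma h2_cons (a : ℕ) (l : List ℕ) (m : ℕ) :
    h2 (a :: l) m = ∑ j ∈ Finset.Ico 2 m, h2 l j / (j : ℝ) ^ a := by rw [h2]

lemma hr_eq (l : List ℕ) : ∀ m, 2 ≤ m → hr l m = h2 l m + if l = [] then 0 else h2 l.dropLast m := by
  induction l with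
  | nil =>
    intro m _
    rw [hr_nil, h2_nil, if_pos rfl, add_zero]
  | cons a l ih =>
    intro m hm
    rw [hr_cons, if_neg (List.cons_ne_nil _ _), h2_cons, Finset.sum_eq_sum_Ico_succ_bot (by omega)]
    have h1 : ∀ j ∈ Finset.Ico (1 + 1) m, hr l j / (j : ℝ) ^ a =
        h2 l j / (j : ℝ) ^ a + (if l = [] then 0 else h2 l.dropLast j) / (j : ℝ) ^ a := by
      intro j hj
      rw [Finset.mem_Ico] at hj
      rw [ih j hj.1, add_div]
    rw [Finset.sum_congr rfl h1, Finset.sum_add_distrib]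
    cases l with
    | nil =>
      simp only [if_true, zero_div, Finset.sum_const_zero, add_zero]
      rw [hr_nil, List.dropLast_singleton, h2_nil]
      simp
      ring
    | cons b l =>
      have h2 : hr (b :: l) 1 = 0 := by rw [hr_cons]; simp
      rw [h2, zero_div, zero_add, List.dropLast_cons_of_ne_nil (List.cons_ne_nil _ _), h2_cons]
      simp only [if_neg (List.cons_ne_nil b l)]

section

variable (W : Finset Wd) (c : Wd → ℤ)

/-- the words without the unit -/
noncomputable def W1 : Finset Wd := by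
  classical exact W ∪ (W.erase []).image List.dropLast

/-- the coefficients without the unit -/
noncomputable def c1 (v : Wd) : ℤ := by
  classical exact (if v ∈ W then c v else 0) + ∑ w ∈ (W.erase []).filter (fun w => w.dropLast = v), c w

lemma sum_c1 (f : Wd → ℝ) : ∑ v ∈ W1 W, (c1 W c v : ℝ) * f v =
    ∑ w ∈ W, (c w : ℝ) * (f w + if w = [] then 0 else f w.dropLast) := by
  classical
  have e1 : ∀ v ∈ W1 W, (c1 W c v : ℝ) * f v = (if v ∈ W then (c v : ℝ) * f v else 0) +
      ∑ w ∈ (W.erase []).filter (fun w => w.dropLast = v), (c w : ℝ) * f w.dropLast := by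
    intro v _
    unfold c1
    push_cast
    rw [add_mul, Finset.sum_mul]
    congr 1
    · split_ifs <;> simp
    · refine Finset.sum_congr rfl fun w hw => ?_
      rw [Finset.mem_filter] at hw
      rw [hw.2]
  rw [Finset.sum_congr rfl e1, Finset.sum_add_distrib]
  have e2 : ∑ v ∈ W1 W, (if v ∈ W then (c v : ℝ) * f v else 0) = ∑ w ∈ W, (c w : ℝ) * f w := by
    rw [← Finset.sum_filter]
    refine Finset.sum_congr ?_ fun _ _ => rfl
    ext v
    rw [Finset.mem_filter]
    unfold W1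
    simp only [Finset.mem_union]
    tauto
  have e3 : ∑ v ∈ W1 W, ∑ w ∈ (W.erase []).filter (fun w => w.dropLast = v),
      (c w : ℝ) * f w.dropLast = ∑ w ∈ W.erase [], (c w : ℝ) * f w.dropLast := by
    refine Finset.sum_fiberwise_of_maps_to (fun w hw => ?_) _
    unfold W1
    exact Finset.mem_union_right _ (Finset.mem_image_of_mem _ hw)
  have e4 : ∑ w ∈ W, (c w : ℝ) * (f w + if w = [] then 0 else f w.dropLast) =
      ∑ w ∈ W, (c w : ℝ) * f w + ∑ w ∈ W, (if w = [] then 0 else (c w : ℝ) * f w.dropLast) := by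
    rw [← Finset.sum_add_distrib]
    refine Finset.sum_congr rfl fun w _ => ?_
    split_ifs <;> ring
  have e5 : ∑ w ∈ W, (if w = [] then 0 else (c w : ℝ) * f w.dropLast) =
      ∑ w ∈ W.erase [], (c w : ℝ) * f w.dropLast := by
    rw [← Finset.filter_ne' W [], Finset.sum_filter]
    refine Finset.sum_congr rfl fun w _ => ?_
    by_cases h : w = []
    · rw [if_pos h, if_neg (by simpa using h)]
    · rw [if_neg h, if_pos h]
  rw [e2, e3, e4, e5]

lemma c1_ne (h : ∃ w ∈ W, c w ≠ 0) : ∃ v ∈ W1 W, c1 W c v ≠ 0 := by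
  classical
  obtain ⟨w0, hw0, h0⟩ := h
  obtain ⟨w, hw, hmax⟩ := Finset.exists_max_image (W.filter fun w => c w ≠ 0) List.length
    ⟨w0, Finset.mem_filter.2 ⟨hw0, h0⟩⟩
  rw [Finset.mem_filter] at hw
  refine ⟨w, Finset.mem_union_left _ hw.1, ?_⟩
  unfold c1
  rw [if_pos hw.1, Finset.sum_eq_zero, add_zero]
  · exact hw.2
  · intro u hu
    rw [Finset.mem_filter, Finset.mem_erase] at hu
    by_contra hcu
    have h1 := hmax u (Finset.mem_filter.2 ⟨hu.1.2, hcu⟩)
    have h2 : w.length = u.length - 1 := by rw [← hu.2, List.length_dropLast]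
    have h3 : 0 < u.length := List.length_pos_of_ne_nil hu.1.1
    omega

lemma c1_length {Cs : ℝ} (h : ∑ w ∈ W, |(c w : ℝ)| ≤ Cs) :
    ∑ v ∈ W1 W, |(c1 W c v : ℝ)| ≤ 2 * Cs := by
  classical
  have e1 := sum_c1 W (fun w => |c w|) (fun _ => 1)
  have e2 : ∀ v ∈ W1 W, |(c1 W c v : ℝ)| ≤ (c1 W (fun w => |c w|) v : ℝ) * 1 := by
    intro v _
    rw [mul_one, ← Int.cast_abs]
    have : |c1 W c v| ≤ c1 W (fun w => |c w|) v := by
      unfold c1
      refine (abs_add_le _ _).trans (add_le_add ?_ (Finset.abs_sum_le_sum_abs _ _))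
      split_ifs <;> simp
    exact_mod_cast this
  refine (Finset.sum_le_sum e2).trans ?_
  rw [e1]
  calc ∑ w ∈ W, ((|c w| : ℤ) : ℝ) * (1 + if w = [] then 0 else 1)
      ≤ ∑ w ∈ W, 2 * |(c w : ℝ)| := by
        refine Finset.sum_le_sum fun w _ => ?_
        rw [Int.cast_abs]
        have h0 := abs_nonneg (c w : ℝ)
        split_ifs <;> linarith
    _ = 2 * ∑ w ∈ W, |(c w : ℝ)| := by rw [Finset.mul_sum]
    _ ≤ _ := by linarith

lemma W1_prop {J A : ℕ} (hW : ∀ w ∈ W, (∀ y ∈ w, 1 ≤ y.1 ∧ y.2 ≤ J) ∧ wt w ≤ A) :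
    ∀ w ∈ W1 W, (∀ y ∈ w, 1 ≤ y.1 ∧ y.2 ≤ J) ∧ wt w ≤ A := by
  classical
  intro v hv
  unfold W1 at hv
  rw [Finset.mem_union, Finset.mem_image] at hv
  rcases hv with hv | ⟨w, hw, rfl⟩
  · exact hW v hv
  · rw [Finset.mem_erase] at hw
    obtain ⟨h1, h2⟩ := hW w hw.2
    refine ⟨fun y hy => h1 y (List.mem_of_mem_dropLast hy), le_trans ?_ h2⟩
    unfold wt
    exact ((List.dropLast_sublist w).map Prod.fst).sum_le_sum fun _ _ => Nat.zero_le _

end

/-- strictly decreasing lists of numbers from `2` to `m - 1` -/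
def dc : ℕ → ℕ → Finset (List ℕ)
  | 0, _ => {[]}
  | r + 1, m => (Finset.Ico 2 m).biUnion fun j => (dc r j).image (List.cons j)

lemma mem_dc : ∀ (r m : ℕ) (l : List ℕ), l ∈ dc r m ↔
    l.length = r ∧ l.Pairwise (· > ·) ∧ ∀ x ∈ l, 2 ≤ x ∧ x < m := by
  intro r
  induction r with
  | zero =>
    intro m l
    rw [dc, Finset.mem_singleton]
    constructor
    · rintro rfl
      simp
    · rintro ⟨h, -⟩
      exact List.length_eq_zero_iff.1 h
  | succ r ih =>
    intro m l
    rw [dc, Finset.mem_biUnion]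
    constructor
    · rintro ⟨j, hj, hl⟩
      rw [Finset.mem_image] at hl
      obtain ⟨l', hl', rfl⟩ := hl
      rw [ih] at hl'
      rw [Finset.mem_Ico] at hj
      obtain ⟨h1, h2, h3⟩ := hl'
      refine ⟨by rw [List.length_cons, h1], List.pairwise_cons.2 ⟨fun x hx => (h3 x hx).2, h2⟩, ?_⟩
      intro x hx
      rcases List.mem_cons.1 hx with rfl | hx
      · exact hj
      · exact ⟨(h3 x hx).1, (h3 x hx).2.trans hj.2⟩
    · rintro ⟨h1, h2, h3⟩
      cases l with
      | nil => simp at h1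
      | cons j l =>
        rw [List.pairwise_cons] at h2
        refine ⟨j, Finset.mem_Ico.2 (h3 j List.mem_cons_self), Finset.mem_image.2 ⟨l, ?_, rfl⟩⟩
        rw [ih]
        exact ⟨by simpa using h1, h2.2, fun x hx => ⟨(h3 x (List.mem_cons_of_mem _ hx)).1,
          h2.1 x hx⟩⟩

lemma sum_dc (r m : ℕ) (f : List ℕ → ℝ) :
    ∑ l ∈ dc (r + 1) m, f l = ∑ j ∈ Finset.Ico 2 m, ∑ l ∈ dc r j, f (j :: l) := by
  classical
  rw [dc, Finset.sum_biUnion]
  · refine Finset.sum_congr rfl fun j _ => ?_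
    rw [Finset.sum_image]
    intro a _ b _ h
    exact (List.cons.inj h).2
  · intro i _ j _ hij
    rw [Function.onFun, Finset.disjoint_left]
    intro l hl hl'
    rw [Finset.mem_image] at hl hl'
    obtain ⟨a, _, rfl⟩ := hl
    obtain ⟨b, _, h⟩ := hl'
    exact hij (List.cons.inj h).1.symm

lemma card_dc (r : ℕ) : ∀ m, (dc r (m + 1)).card ≤ m ^ r := by
  classical
  induction r with
  | zero =>
    intro m
    rw [dc]
    simp
  | succ r ih =>
    intro m
    rw [dc]
    refine Finset.card_biUnion_le.trans ?_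
    calc ∑ j ∈ Finset.Ico 2 (m + 1), ((dc r j).image (List.cons j)).card
        ≤ ∑ _j ∈ Finset.Ico 2 (m + 1), m ^ r := by
          refine Finset.sum_le_sum fun j hj => ?_
          rw [Finset.mem_Ico] at hj
          obtain ⟨i, rfl⟩ := Nat.exists_eq_add_of_le' (show 1 ≤ j by omega)
          exact Finset.card_image_le.trans ((ih i).trans (Nat.pow_le_pow_left (by omega) _))
      _ = (m + 1 - 2) * m ^ r := by rw [Finset.sum_const, Nat.card_Ico, smul_eq_mul]
      _ ≤ m ^ (r + 1) := by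
          rw [pow_succ, mul_comm (m ^ r)]
          exact Nat.mul_le_mul_right _ (by omega)

/-- the product of the powers -/
def qq : Wd → List ℕ → ℕ
  | y :: w, j :: l => j ^ y.1 * qq w l
  | _, _ => 1

/-- the second product -/
def bb : Wd → List ℕ → ℕ
  | y :: w, j :: l => j ^ y.2 * bb w l
  | _, _ => 1

lemma qq_cons (y : ℕ × ℕ) (w : Wd) (j : ℕ) (l : List ℕ) :
    qq (y :: w) (j :: l) = j ^ y.1 * qq w l := by rw [qq]
lemma bb_cons (y : ℕ × ℕ) (w : Wd) (j : ℕ) (l : List ℕ) :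
    bb (y :: w) (j :: l) = j ^ y.2 * bb w l := by rw [bb]
lemma qq_nil (l : List ℕ) : qq [] l = 1 := by simp [qq]
lemma bb_nil (l : List ℕ) : bb [] l = 1 := by simp [bb]

lemma qq_pos (w : Wd) : ∀ l : List ℕ, (∀ x ∈ l, 2 ≤ x) → 1 ≤ qq w l := by
  induction w with
  | nil => intro l _; rw [qq_nil]
  | cons y w ih =>
    intro l hl
    cases l with
    | nil => simp [qq]
    | cons j l =>
      rw [qq_cons]
      have h1 := hl j List.mem_cons_self
      exact Nat.mul_pos (Nat.pow_pos (by omega)) (ih l fun x hx => hl x (List.mem_cons_of_mem _ hx))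

lemma bb_pos (w : Wd) : ∀ l : List ℕ, (∀ x ∈ l, 2 ≤ x) → 1 ≤ bb w l := by
  induction w with
  | nil => intro l _; rw [bb_nil]
  | cons y w ih =>
    intro l hl
    cases l with
    | nil => simp [bb]
    | cons j l =>
      rw [bb_cons]
      have h1 := hl j List.mem_cons_self
      exact Nat.mul_pos (Nat.pow_pos (by omega)) (ih l fun x hx => hl x (List.mem_cons_of_mem _ hx))

lemma dvd_qq (w : Wd) (hw : ∀ y ∈ w, 1 ≤ y.1) : ∀ l : List ℕ, l.length = w.length →
    ∀ x ∈ l, x ∣ qq w l := by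
  induction w with
  | nil =>
    intro l hl x hx
    rw [List.length_nil, List.length_eq_zero_iff] at hl
    rw [hl] at hx
    exact absurd hx List.not_mem_nil
  | cons y w ih =>
    intro l hl x hx
    cases l with
    | nil => exact absurd hx List.not_mem_nil
    | cons j l =>
      rw [qq_cons]
      rcases List.mem_cons.1 hx with rfl | hx
      · exact dvd_mul_of_dvd_left (dvd_pow_self _ (by have := hw y List.mem_cons_self; omega)) _
      · exact dvd_mul_of_dvd_right (ih (fun z hz => hw z (List.mem_cons_of_mem _ hz)) l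
          (by simpa using hl) x hx) _

lemma bb_dvd (J : ℕ) (w : Wd) (hw : ∀ y ∈ w, 1 ≤ y.1 ∧ y.2 ≤ J) : ∀ l : List ℕ,
    bb w l ∣ qq w l ^ J := by
  induction w with
  | nil => intro l; rw [bb_nil]; exact one_dvd _
  | cons y w ih =>
    intro l
    cases l with
    | nil => simp [bb]
    | cons j l =>
      rw [qq_cons, bb_cons, mul_pow, ← pow_mul]
      refine mul_dvd_mul (pow_dvd_pow _ ?_) (ih (fun z hz => hw z (List.mem_cons_of_mem _ hz)) l)
      obtain ⟨h1, h2⟩ := hw y List.mem_cons_self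
      nlinarith

lemma qq_le {x : ℕ} (w : Wd) : ∀ l : List ℕ, (∀ y ∈ l, y ≤ x) → 1 ≤ x → qq w l ≤ x ^ wt w := by
  induction w with
  | nil => intro l _ _; rw [qq_nil]; unfold wt; simp
  | cons y w ih =>
    intro l hl hx
    cases l with
    | nil =>
      simp only [qq]
      exact Nat.one_le_pow _ _ hx
    | cons j l =>
      have h1 : wt (y :: w) = y.1 + wt w := by unfold wt; simp
      rw [qq_cons, h1, pow_add]
      exact Nat.mul_le_mul (Nat.pow_le_pow_left (hl j List.mem_cons_self) _)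
        (ih l (fun z hz => hl z (List.mem_cons_of_mem _ hz)) hx)

lemma h2_sum (N : ℕ) (w : Wd) : ∀ m, h2 (ar N w) m =
    ∑ l ∈ dc w.length m, ((qq w l : ℝ) ^ N * (bb w l : ℝ))⁻¹ := by
  induction w with
  | nil =>
    intro m
    unfold ar
    rw [List.map_nil, h2_nil, List.length_nil, dc, Finset.sum_singleton, qq_nil, bb_nil]
    simp
  | cons y w ih =>
    intro m
    have h1 : ar N (y :: w) = (y.1 * N + y.2) :: ar N w := rfl
    rw [h1, h2_cons, List.length_cons, sum_dc]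
    refine Finset.sum_congr rfl fun j _ => ?_
    rw [ih, Finset.sum_div]
    refine Finset.sum_congr rfl fun l _ => ?_
    rw [qq_cons, bb_cons, div_eq_mul_inv, ← mul_inv]
    congr 1
    push_cast
    rw [mul_pow, ← pow_mul, pow_add]
    ring

/-- the coefficient of `q ^ (-N)` -/
noncomputable def Fq (V : Finset Wd) (c : Wd → ℤ) (m q : ℕ) : ℝ :=
  ∑ v ∈ V, ∑ l ∈ (dc v.length m).filter (fun l => qq v l = q), (c v : ℝ) / (bb v l : ℝ)

lemma filter_dc {v : Wd} (hv : ∀ y ∈ v, 1 ≤ y.1) {m q : ℕ} :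
    (dc v.length m).filter (fun l => qq v l = q) ⊆
      (dc v.length (q + 1)).filter (fun l => qq v l = q) := by
  intro l hl
  rw [Finset.mem_filter, mem_dc] at hl ⊢
  obtain ⟨⟨h1, h2, h3⟩, h4⟩ := hl
  refine ⟨⟨h1, h2, fun x hx => ⟨(h3 x hx).1, ?_⟩⟩, h4⟩
  have h5 := Nat.le_of_dvd (qq_pos v l fun x hx => (h3 x hx).1) (dvd_qq v hv l h1 x hx)
  omega

lemma Fq_stable {V : Finset Wd} (hV : ∀ v ∈ V, ∀ y ∈ v, 1 ≤ y.1) (c : Wd → ℤ) {m q : ℕ}
    (hm : q < m) : Fq V c m q = Fq V c (q + 1) q := by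
  unfold Fq
  refine Finset.sum_congr rfl fun v hv => Finset.sum_congr ?_ fun _ _ => rfl
  refine Finset.Subset.antisymm (filter_dc (hV v hv)) ?_
  intro l hl
  rw [Finset.mem_filter, mem_dc] at hl ⊢
  obtain ⟨⟨h1, h2, h3⟩, h4⟩ := hl
  exact ⟨⟨h1, h2, fun x hx => ⟨(h3 x hx).1, by have := (h3 x hx).2; omega⟩⟩, h4⟩

lemma length_le_wt {v : Wd} (hv : ∀ y ∈ v, 1 ≤ y.1) : v.length ≤ wt v := by
  induction v with
  | nil => simp [wt]
  | cons y v ih =>
    have h1 : wt (y :: v) = y.1 + wt v := by unfold wt; simp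
    rw [h1, List.length_cons]
    have h2 := ih fun z hz => hv z (List.mem_cons_of_mem _ hz)
    have h3 := hv y List.mem_cons_self
    omega

lemma Fq_bd {V : Finset Wd} {A J : ℕ} (hV : ∀ v ∈ V, (∀ y ∈ v, 1 ≤ y.1 ∧ y.2 ≤ J) ∧ wt v ≤ A)
    (c : Wd → ℤ) (m : ℕ) {q : ℕ} (hq : 1 ≤ q) {Cs : ℝ} (hC : ∑ v ∈ V, |(c v : ℝ)| ≤ Cs) :
    |Fq V c m q| ≤ Cs * (q : ℝ) ^ A := by
  unfold Fq
  have hq1 : (1 : ℝ) ≤ q := by exact_mod_cast hq
  calc |∑ v ∈ V, ∑ l ∈ (dc v.length m).filter (fun l => qq v l = q), (c v : ℝ) / (bb v l : ℝ)|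
      ≤ ∑ v ∈ V, |(c v : ℝ)| * (q : ℝ) ^ A := by
        refine (Finset.abs_sum_le_sum_abs _ _).trans (Finset.sum_le_sum fun v hv => ?_)
        obtain ⟨h1, h2⟩ := hV v hv
        have h1' : ∀ y ∈ v, 1 ≤ y.1 := fun y hy => (h1 y hy).1
        calc |∑ l ∈ (dc v.length m).filter (fun l => qq v l = q), (c v : ℝ) / (bb v l : ℝ)|
            ≤ ∑ l ∈ (dc v.length m).filter (fun l => qq v l = q), |(c v : ℝ)| := by
              refine (Finset.abs_sum_le_sum_abs _ _).trans (Finset.sum_le_sum fun l hl => ?_)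
              rw [Finset.mem_filter, mem_dc] at hl
              have h3 : (1 : ℝ) ≤ (bb v l : ℝ) := by
                exact_mod_cast bb_pos v l fun x hx => (hl.1.2.2 x hx).1
              rw [abs_div, abs_of_pos (by linarith : (0 : ℝ) < (bb v l : ℝ))]
              exact div_le_self (abs_nonneg _) h3
          _ = (((dc v.length m).filter (fun l => qq v l = q)).card : ℝ) * |(c v : ℝ)| := by
              rw [Finset.sum_const, nsmul_eq_mul]
          _ ≤ (q : ℝ) ^ A * |(c v : ℝ)| := by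
              refine mul_le_mul_of_nonneg_right ?_ (abs_nonneg _)
              have h4 : ((dc v.length m).filter (fun l => qq v l = q)).card ≤ q ^ v.length :=
                (Finset.card_le_card ((filter_dc h1').trans (Finset.filter_subset _ _))).trans
                  (card_dc _ q)
              have h5 : q ^ v.length ≤ q ^ A :=
                Nat.pow_le_pow_right hq ((length_le_wt h1').trans h2)
              exact_mod_cast h4.trans h5
          _ = _ := mul_comm _ _
    _ = (∑ v ∈ V, |(c v : ℝ)|) * (q : ℝ) ^ A := by rw [Finset.sum_mul]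
    _ ≤ _ := mul_le_mul_of_nonneg_right hC (by positivity)

lemma Fq_int {V : Finset Wd} {J : ℕ} (hV : ∀ v ∈ V, ∀ y ∈ v, 1 ≤ y.1 ∧ y.2 ≤ J)
    (c : Wd → ℤ) (m q : ℕ) : ∃ z : ℤ, Fq V c m q * (q : ℝ) ^ J = z := by
  have h1 : ∀ v ∈ V, ∀ l ∈ (dc v.length m).filter (fun l => qq v l = q),
      ∃ z : ℤ, (c v : ℝ) / (bb v l : ℝ) * (q : ℝ) ^ J = z := by
    intro v hv l hl
    rw [Finset.mem_filter, mem_dc] at hl
    obtain ⟨d, hd⟩ := bb_dvd J v (hV v hv) l
    have h3 : (0 : ℝ) < (bb v l : ℝ) := by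
      exact_mod_cast bb_pos v l fun x hx => (hl.1.2.2 x hx).1
    refine ⟨c v * d, ?_⟩
    rw [hl.2] at hd
    have h4 : (q : ℝ) ^ J = (bb v l : ℝ) * d := by exact_mod_cast hd
    rw [h4]
    push_cast
    field_simp
  choose! z hz using h1
  refine ⟨∑ v ∈ V, ∑ l ∈ (dc v.length m).filter (fun l => qq v l = q), z v l, ?_⟩
  unfold Fq
  push_cast
  rw [Finset.sum_mul]
  refine Finset.sum_congr rfl fun v hv => ?_
  rw [Finset.sum_mul]
  exact Finset.sum_congr rfl fun l hl => hz v hv l hl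

lemma sum_Fq (V : Finset Wd) (c : Wd → ℤ) (N m : ℕ) : ∃ Q0 : ℕ, ∀ Q, Q0 ≤ Q →
    ∑ v ∈ V, (c v : ℝ) * h2 (ar N v) m = ∑ q ∈ Finset.Icc 1 Q, Fq V c m q / (q : ℝ) ^ N := by
  classical
  refine ⟨∑ v ∈ V, ∑ l ∈ dc v.length m, qq v l, fun Q hQ => ?_⟩
  unfold Fq
  simp only [Finset.sum_div]
  rw [Finset.sum_comm]
  refine Finset.sum_congr rfl fun v hv => ?_
  have h1 : ∀ l ∈ dc v.length m, qq v l ∈ Finset.Icc 1 Q := by
    intro l hl
    rw [Finset.mem_Icc]
    refine ⟨qq_pos v l fun x hx => (((mem_dc _ _ _).1 hl).2.2 x hx).1, le_trans ?_ hQ⟩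
    refine le_trans (Finset.single_le_sum (f := fun l => qq v l) (fun _ _ => Nat.zero_le _) hl) ?_
    exact Finset.single_le_sum (f := fun v => ∑ l ∈ dc v.length m, qq v l)
      (fun _ _ => Nat.zero_le _) hv
  rw [h2_sum, Finset.mul_sum, ← Finset.sum_fiberwise_of_maps_to h1]
  refine Finset.sum_congr rfl fun q _ => Finset.sum_congr rfl fun l hl => ?_
  rw [Finset.mem_filter] at hl
  rw [← hl.2, mul_inv, div_div, div_eq_mul_inv, mul_inv]
  ring

end Pool.Agent.R404.WZ
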