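import Pool.Agent.R404.WZ.A
import Pool.Agent.R404.MZ.Arith

/-!
# The lower bound given a nonzero coefficient
-/

set_option autoImplicit false

namespace Pool.Agent.R404.WZ

open Finset Filter Topology
open Pool.Agent.Y760.ZG (hr hr_nil hr_cons mz hr_nonneg hr_le tail_sum)
open Pool.Agent.R404.MZ (two_pow_le)

lemma h2_low (N A J K m : ℕ) (V : Finset Wd) (c : Wd → ℤ)
    (hV : ∀ v ∈ V, (∀ y ∈ v, 1 ≤ y.1 ∧ y.2 ≤ J) ∧ wt v ≤ A)
    (Cs : ℝ) (hCs : 1 ≤ Cs) (hC : ∑ v ∈ V, |(c v : ℝ)| ≤ 2 * Cs) (hN : A + 2 ≤ N)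
    (hcond : 4 * Cs * ((K : ℝ) + 1) ^ (A + 2 + J) ≤ 2 ^ (N / K))
    (hq : ∃ q, 1 ≤ q ∧ q ≤ K ∧ Fq V c (q + 1) q ≠ 0) (hm : K < m) :
    (2 * (K : ℝ) ^ (N + J))⁻¹ ≤ |∑ v ∈ V, (c v : ℝ) * h2 (ar N v) m| := by
  classical
  have hfind := Nat.find_spec hq
  set q := Nat.find hq with hqdef
  obtain ⟨hq1, hqK, hqF⟩ := hfind
  have hmin : ∀ i, 1 ≤ i → i < q → Fq V c (i + 1) i = 0 := by
    intro i h1 h2
    by_contra h3
    exact Nat.find_min hq h2 ⟨h1, by omega, h3⟩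
  have hV1 : ∀ v ∈ V, ∀ y ∈ v, 1 ≤ y.1 := fun v hv y hy => ((hV v hv).1 y hy).1
  have hq0 : (0 : ℝ) < q := by exact_mod_cast hq1
  have hq1r : (1 : ℝ) ≤ q := by exact_mod_cast hq1
  have hqKr : (q : ℝ) ≤ K := by exact_mod_cast hqK
  obtain ⟨Q0, hQ0⟩ := sum_Fq V c N m
  set Q : ℕ := max Q0 q with hQ
  rw [hQ0 Q (le_max_left _ _)]
  have hqQ : q ≤ Q := le_max_right _ _
  -- split the sum
  have hsplit : ∑ i ∈ Finset.Icc 1 Q, Fq V c m i / (i : ℝ) ^ N =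
      Fq V c (q + 1) q / (q : ℝ) ^ N + ∑ i ∈ Finset.Ioc q Q, Fq V c m i / (i : ℝ) ^ N := by
    have e1 : Finset.Icc 1 Q = Finset.Icc 1 q ∪ Finset.Ioc q Q := by
      ext i
      rw [Finset.mem_union, Finset.mem_Icc, Finset.mem_Icc, Finset.mem_Ioc]
      omega
    have e2 : Disjoint (Finset.Icc 1 q) (Finset.Ioc q Q) := by
      rw [Finset.disjoint_left]
      intro i h1 h2
      rw [Finset.mem_Icc] at h1
      rw [Finset.mem_Ioc] at h2
      omega
    rw [e1, Finset.sum_union e2]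
    congr 1
    rw [Finset.sum_eq_single q]
    · rw [Fq_stable hV1 c (by omega : q < m)]
    · intro i hi hne
      rw [Finset.mem_Icc] at hi
      rw [Fq_stable hV1 c (by omega : i < m), hmin i hi.1 (by omega), zero_div]
    · intro h
      exact absurd (Finset.mem_Icc.2 ⟨hq1, le_refl q⟩) h
  rw [hsplit]
  -- the tail
  have htail : |∑ i ∈ Finset.Ioc q Q, Fq V c m i / (i : ℝ) ^ N| ≤
      2 * Cs * (((q + 1 : ℕ) : ℝ) ^ (N - (A + 2)))⁻¹ := by
    calc |∑ i ∈ Finset.Ioc q Q, Fq V c m i / (i : ℝ) ^ N|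
        ≤ ∑ i ∈ Finset.Ioc q Q, (2 * Cs * (((q + 1 : ℕ) : ℝ) ^ (N - (A + 2)))⁻¹) *
            ((i : ℝ) ^ 2)⁻¹ := by
          refine (Finset.abs_sum_le_sum_abs _ _).trans (Finset.sum_le_sum fun i hi => ?_)
          rw [Finset.mem_Ioc] at hi
          have hi0 : (0 : ℝ) < i := by
            have : 0 < i := by omega
            exact_mod_cast this
          have hi1 : ((q + 1 : ℕ) : ℝ) ≤ i := by exact_mod_cast hi.1
          have h1 := Fq_bd hV c m (by omega : 1 ≤ i) hC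
          rw [abs_div, abs_of_pos (by positivity : (0 : ℝ) < (i : ℝ) ^ N)]
          have h2 : (i : ℝ) ^ N = (i : ℝ) ^ A * ((i : ℝ) ^ 2 * (i : ℝ) ^ (N - (A + 2))) := by
            rw [← pow_add, ← pow_add]
            congr 1
            omega
          have h3 : (((i : ℝ) ^ (N - (A + 2))))⁻¹ ≤ (((q + 1 : ℕ) : ℝ) ^ (N - (A + 2)))⁻¹ := by
            refine inv_anti₀ (by positivity) ?_
            exact pow_le_pow_left₀ (by positivity) hi1 _
          calc |Fq V c m i| / (i : ℝ) ^ N ≤ 2 * Cs * (i : ℝ) ^ A / (i : ℝ) ^ N :=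
                div_le_div_of_nonneg_right h1 (by positivity)
            _ = 2 * Cs * (((i : ℝ) ^ (N - (A + 2))))⁻¹ * ((i : ℝ) ^ 2)⁻¹ := by
                rw [h2]
                field_simp
            _ ≤ _ := by
                refine mul_le_mul_of_nonneg_right ?_ (by positivity)
                exact mul_le_mul_of_nonneg_left h3 (by linarith)
      _ = (2 * Cs * (((q + 1 : ℕ) : ℝ) ^ (N - (A + 2)))⁻¹) * ∑ i ∈ Finset.Ioc q Q,
            ((i : ℝ) ^ 2)⁻¹ := by rw [Finset.mul_sum]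
      _ ≤ (2 * Cs * (((q + 1 : ℕ) : ℝ) ^ (N - (A + 2)))⁻¹) * 1 := by
          refine mul_le_mul_of_nonneg_left ?_ (by positivity)
          have h1 := sum_Ioc_inv_sq_le_sub (α := ℝ) (k := q) (n := Q) (by omega) hqQ
          have h2 : ((q : ℝ))⁻¹ ≤ 1 := inv_le_one_of_one_le₀ hq1r
          have h3 : (0 : ℝ) ≤ ((Q : ℝ))⁻¹ := by positivity
          linarith
      _ = _ := by ring
  -- the main term
  have hmain : (((q : ℝ) ^ (N + J)))⁻¹ ≤ |Fq V c (q + 1) q / (q : ℝ) ^ N| := by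
    obtain ⟨z, hz⟩ := Fq_int (fun v hv => (hV v hv).1) c (q + 1) q
    have hz0 : z ≠ 0 := by
      rintro rfl
      rw [Int.cast_zero] at hz
      rcases mul_eq_zero.1 hz with h | h
      · exact hqF h
      · exact (by positivity : (q : ℝ) ^ J ≠ 0) h
    have hz1 : (1 : ℝ) ≤ |(z : ℝ)| := by
      rw [← Int.cast_abs]
      exact_mod_cast Int.one_le_abs hz0
    have h1 : Fq V c (q + 1) q / (q : ℝ) ^ N = z / (q : ℝ) ^ (N + J) := by
      rw [← hz, pow_add]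
      field_simp
    rw [h1, abs_div, abs_of_pos (by positivity : (0 : ℝ) < (q : ℝ) ^ (N + J)), inv_eq_one_div]
    exact div_le_div_of_nonneg_right hz1 (by positivity)
  -- comparison
  have hcmp : 2 * Cs * (((q + 1 : ℕ) : ℝ) ^ (N - (A + 2)))⁻¹ ≤ (((q : ℝ) ^ (N + J)))⁻¹ / 2 := by
    have h1 := two_pow_le (M := N) hq1 hqK
    have hq2 : (0 : ℝ) < ((q + 1 : ℕ) : ℝ) := by positivity
    have hq3 : ((q + 1 : ℕ) : ℝ) ≤ (K : ℝ) + 1 := by
      push_cast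
      linarith
    have h2 : 4 * Cs * (((q + 1 : ℕ) : ℝ) ^ (A + 2) * (q : ℝ) ^ J) ≤ 2 ^ (N / K) := by
      refine le_trans ?_ hcond
      refine mul_le_mul_of_nonneg_left ?_ (by linarith)
      rw [pow_add _ (A + 2) J]
      refine mul_le_mul (pow_le_pow_left₀ hq2.le hq3 _) (pow_le_pow_left₀ hq0.le (by linarith) _)
        (by positivity) (by positivity)
    have h3 : ((q + 1 : ℕ) : ℝ) ^ N = ((q + 1 : ℕ) : ℝ) ^ (A + 2) *
        ((q + 1 : ℕ) : ℝ) ^ (N - (A + 2)) := by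
      rw [← pow_add]
      congr 1
      omega
    have h4 : 4 * Cs * (q : ℝ) ^ (N + J) ≤ ((q + 1 : ℕ) : ℝ) ^ (N - (A + 2)) := by
      have h5 : 4 * Cs * (q : ℝ) ^ (N + J) * ((q + 1 : ℕ) : ℝ) ^ (A + 2) ≤
          ((q + 1 : ℕ) : ℝ) ^ (N - (A + 2)) * ((q + 1 : ℕ) : ℝ) ^ (A + 2) := by
        calc 4 * Cs * (q : ℝ) ^ (N + J) * ((q + 1 : ℕ) : ℝ) ^ (A + 2)
            = 4 * Cs * (((q + 1 : ℕ) : ℝ) ^ (A + 2) * (q : ℝ) ^ J) * (q : ℝ) ^ N := by
              rw [pow_add]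
              ring
          _ ≤ 2 ^ (N / K) * (q : ℝ) ^ N := mul_le_mul_of_nonneg_right h2 (by positivity)
          _ ≤ ((q + 1 : ℕ) : ℝ) ^ N := h1
          _ = _ := by rw [h3]; ring
      exact le_of_mul_le_mul_right h5 (by positivity)
    rw [← div_eq_mul_inv, div_le_div_iff₀ (by positivity) two_pos, inv_mul_eq_div,
      le_div_iff₀ (by positivity)]
    nlinarith
  have hfin : (2 * (K : ℝ) ^ (N + J))⁻¹ ≤ (((q : ℝ) ^ (N + J)))⁻¹ / 2 := by
    rw [mul_inv, mul_comm, ← div_eq_mul_inv]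
    refine div_le_div_of_nonneg_right ?_ (by norm_num)
    refine inv_anti₀ (by positivity) ?_
    exact pow_le_pow_left₀ hq0.le hqKr _
  have htri := abs_sub_abs_le_abs_sub (Fq V c (q + 1) q / (q : ℝ) ^ N)
    (-(∑ i ∈ Finset.Ioc q Q, Fq V c m i / (i : ℝ) ^ N))
  rw [sub_neg_eq_add, abs_neg] at htri
  linarith

lemma hr_tendsto (s : ℕ) (l : List ℕ) (hs : l.length + 2 ≤ s) :
    Tendsto (fun n => hr (s :: l) (n + 1)) atTop (𝓝 (mz (s :: l))) := by
  have h1 : Summable fun m : ℕ => hr l (m + 1) / ((m + 1 : ℕ) : ℝ) ^ s := by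
    have h2 := tail_sum (f := fun m : ℕ => hr l m / (m : ℝ) ^ s) (C := 1) (A := l.length) (σ := s)
      zero_le_one hs (fun m hm => by
        rw [abs_of_nonneg (div_nonneg (hr_nonneg _ _) (by positivity)), one_mul, div_eq_mul_inv]
        exact mul_le_mul_of_nonneg_right (hr_le l m hm) (by positivity)) (le_refl 1)
    exact h2
  have h2 := h1.hasSum.tendsto_sum_nat
  have h3 : mz (s :: l) = ∑' k : ℕ, hr l (k + 1) / ((k + 1 : ℕ) : ℝ) ^ s := by rw [mz]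
  rw [h3]
  refine h2.congr fun n => ?_
  rw [hr_cons, Finset.sum_Ico_eq_sum_range, Nat.add_sub_cancel]
  exact Finset.sum_congr rfl fun i _ => by rw [add_comm 1 i]

lemma ar_tendsto {N A J : ℕ} (hN : A + 2 ≤ N) {w : Wd} (hw : (∀ y ∈ w, 1 ≤ y.1 ∧ y.2 ≤ J) ∧ wt w ≤ A) :
    Tendsto (fun n => hr (ar N w) (n + 1)) atTop (𝓝 (mz (ar N w))) := by
  cases w with
  | nil =>
    have h1 : ar N [] = [] := rfl
    rw [h1]
    simp only [hr_nil]
    have h2 : mz [] = 1 := by rw [mz]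
    rw [h2]
    exact tendsto_const_nhds
  | cons y w =>
    have h1 : ar N (y :: w) = (y.1 * N + y.2) :: ar N w := rfl
    rw [h1]
    refine hr_tendsto _ _ ?_
    have h2 : (ar N w).length = w.length := by unfold ar; rw [List.length_map]
    have h3 := length_le_wt (v := y :: w) fun z hz => (hw.1 z hz).1
    rw [List.length_cons] at h3
    have h4 := (hw.1 y List.mem_cons_self).1
    have h5 : N ≤ y.1 * N := Nat.le_mul_of_pos_left _ h4
    have h6 := hw.2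
    omega

/-- **the lower bound, given a nonzero coefficient** -/
theorem low (N A J K : ℕ) (W : Finset Wd) (c : Wd → ℤ)
    (hW : ∀ w ∈ W, (∀ y ∈ w, 1 ≤ y.1 ∧ y.2 ≤ J) ∧ wt w ≤ A)
    (Cs : ℝ) (hCs : 1 ≤ Cs) (hC : ∑ w ∈ W, |(c w : ℝ)| ≤ Cs) (hN : A + 2 ≤ N)
    (hcond : 4 * Cs * ((K : ℝ) + 1) ^ (A + 2 + J) ≤ 2 ^ (N / K))
    (hq : ∃ q, 1 ≤ q ∧ q ≤ K ∧ Fq (W1 W) (c1 W c) (q + 1) q ≠ 0) :
    (2 * (K : ℝ) ^ (N + J))⁻¹ ≤ |∑ w ∈ W, (c w : ℝ) * mz (ar N w)| := by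
  have hK : 1 ≤ K := by
    obtain ⟨q, h1, h2, -⟩ := hq
    omega
  have h1 : Tendsto (fun n => |∑ w ∈ W, (c w : ℝ) * hr (ar N w) (n + 1)|) atTop
      (𝓝 |∑ w ∈ W, (c w : ℝ) * mz (ar N w)|) := by
    refine Tendsto.abs (tendsto_finsetSum _ fun w hw => ?_)
    exact (ar_tendsto hN (hW w hw)).const_mul _
  refine ge_of_tendsto h1 ?_
  filter_upwards [eventually_ge_atTop (K + 1)] with n hn
  have hlow := h2_low N A J K (n + 1) (W1 W) (c1 W c) (W1_prop W hW) Cs hCs (c1_length W c hC) hN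
    hcond hq (by omega)
  have h3 : ∑ w ∈ W, (c w : ℝ) * hr (ar N w) (n + 1) =
      ∑ v ∈ W1 W, (c1 W c v : ℝ) * h2 (ar N v) (n + 1) := by
    rw [sum_c1 W c (fun v => h2 (ar N v) (n + 1))]
    refine Finset.sum_congr rfl fun w _ => ?_
    rw [hr_eq _ _ (by omega)]
    congr 2
    have e1 : ar N w = [] ↔ w = [] := by unfold ar; exact List.map_eq_nil_iff
    have e2 : (ar N w).dropLast = ar N w.dropLast := by unfold ar; rw [List.map_dropLast]
    by_cases h : w = []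
    · rw [if_pos h, if_pos (e1.2 h)]
    · rw [if_neg h, if_neg (fun h' => h (e1.1 h')), e2]
  rw [h3]
  exact hlow

end Pool.Agent.R404.WZ
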