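import Pool.Agent.R404.WZ.A

/-!
# A small index with a nonzero coefficient
-/

set_option autoImplicit false

namespace Pool.Agent.R404.WZ

open Finset

lemma wt_cons (y : ℕ × ℕ) (w : Wd) : wt (y :: w) = y.1 + wt w := by unfold wt; simp

lemma om_ge (v : Wd) : ∀ l : List ℕ, l.length = v.length → (∀ x ∈ l, 2 ≤ x) →
    (∀ y ∈ v, 1 ≤ y.1) → wt v ≤ ArithmeticFunction.cardFactors (qq v l) ∧
      (ArithmeticFunction.cardFactors (qq v l) ≤ wt v → ∀ x ∈ l, x.Prime) := by
  induction v with
  | nil =>
    intro l hl _ _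
    rw [List.length_nil, List.length_eq_zero_iff] at hl
    subst hl
    refine ⟨by unfold wt; simp, fun _ x hx => absurd hx List.not_mem_nil⟩
  | cons y v ih =>
    intro l hl h2 hv
    cases l with
    | nil => simp at hl
    | cons j l =>
      obtain ⟨h3, h4⟩ := ih l (by simpa using hl) (fun x hx => h2 x (List.mem_cons_of_mem _ hx))
        (fun z hz => hv z (List.mem_cons_of_mem _ hz))
      have hj := h2 j List.mem_cons_self
      have hy := hv y List.mem_cons_self
      have hq := qq_pos v l fun x hx => h2 x (List.mem_cons_of_mem _ hx)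
      have h5 : ArithmeticFunction.cardFactors (qq (y :: v) (j :: l)) =
          y.1 * ArithmeticFunction.cardFactors j + ArithmeticFunction.cardFactors (qq v l) := by
        rw [qq_cons, ArithmeticFunction.cardFactors_mul (pow_ne_zero _ (by omega)) (by omega),
          ArithmeticFunction.cardFactors_pow]
      have h6 : 1 ≤ ArithmeticFunction.cardFactors j := by
        rw [Nat.one_le_iff_ne_zero, ne_eq, ArithmeticFunction.cardFactors_eq_zero_iff_eq_zero_or_one]
        omega
      rw [h5, wt_cons]
      have h7 : y.1 ≤ y.1 * ArithmeticFunction.cardFactors j := Nat.le_mul_of_pos_right _ h6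
      refine ⟨by omega, fun h8 x hx => ?_⟩
      rcases List.mem_cons.1 hx with rfl | hx
      · rw [← ArithmeticFunction.cardFactors_eq_one_iff_prime]
        by_contra h9
        have h10 : 2 ≤ ArithmeticFunction.cardFactors x := by omega
        have h11 : y.1 * 2 ≤ y.1 * ArithmeticFunction.cardFactors x := Nat.mul_le_mul_left _ h10
        omega
      · exact h4 (by omega) x hx

lemma om_eq (v : Wd) : ∀ l : List ℕ, l.length = v.length → (∀ x ∈ l, x.Prime) →
    ArithmeticFunction.cardFactors (qq v l) = wt v := by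
  induction v with
  | nil =>
    intro l _ _
    rw [qq_nil]
    unfold wt
    simp
  | cons y v ih =>
    intro l hl h2
    cases l with
    | nil => simp at hl
    | cons j l =>
      have hj := h2 j List.mem_cons_self
      have hq := qq_pos v l fun x hx => (h2 x (List.mem_cons_of_mem _ hx)).two_le
      rw [qq_cons, ArithmeticFunction.cardFactors_mul (pow_ne_zero _ hj.ne_zero) (by omega),
        ArithmeticFunction.cardFactors_pow, ih l (by simpa using hl)
          (fun x hx => h2 x (List.mem_cons_of_mem _ hx)), wt_cons,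
        ArithmeticFunction.cardFactors_apply_prime hj, mul_one]

lemma dvd_mem {p : ℕ} (hp : p.Prime) (v : Wd) : ∀ l : List ℕ, (∀ x ∈ l, x.Prime) →
    p ∣ qq v l → p ∈ l := by
  induction v with
  | nil =>
    intro l _ h
    rw [qq_nil] at h
    exact absurd (Nat.dvd_one.1 h) hp.one_lt.ne'
  | cons y v ih =>
    intro l hl h
    cases l with
    | nil =>
      simp only [qq] at h
      exact absurd (Nat.dvd_one.1 h) hp.one_lt.ne'
    | cons j l =>
      rw [qq_cons] at h
      rcases (Nat.Prime.dvd_mul hp).1 h with h | h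
      · have h1 := hp.dvd_of_dvd_pow h
        rw [(Nat.prime_dvd_prime_iff_eq hp (hl j List.mem_cons_self)).1 h1]
        exact List.mem_cons_self
      · exact List.mem_cons_of_mem _ (ih l (fun x hx => hl x (List.mem_cons_of_mem _ hx)) h)

lemma ident (v : Wd) : ∀ (v' : Wd) (l l' : List ℕ), l.length = v.length →
    l'.length = v'.length → (∀ y ∈ v, 1 ≤ y.1) → (∀ y ∈ v', 1 ≤ y.1) → (∀ x ∈ l, x.Prime) →
    (∀ x ∈ l', x.Prime) → l.Pairwise (· > ·) → l'.Pairwise (· > ·) → qq v l = qq v' l' →
    l = l' ∧ v.map Prod.fst = v'.map Prod.fst := by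
  induction v with
  | nil =>
    intro v' l l' hl hl' _ hv' _ hp' _ _ h
    rw [List.length_nil, List.length_eq_zero_iff] at hl
    subst hl
    rw [qq_nil] at h
    cases l' with
    | nil =>
      rw [List.length_nil] at hl'
      rw [List.length_eq_zero_iff.1 hl'.symm]
      exact ⟨rfl, rfl⟩
    | cons j l' =>
      have h1 := dvd_qq v' hv' (j :: l') hl' j List.mem_cons_self
      rw [← h] at h1
      exact absurd (Nat.dvd_one.1 h1) (hp' j List.mem_cons_self).one_lt.ne'
  | cons y v ih =>
    intro v' l l' hl hl' hv hv' hp hp' hs hs' h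
    cases l with
    | nil => simp at hl
    | cons j l =>
      cases l' with
      | nil =>
        rw [List.length_nil] at hl'
        rw [List.length_eq_zero_iff.1 hl'.symm, qq_nil] at h
        have h1 := dvd_qq (y :: v) hv (j :: l) hl j List.mem_cons_self
        rw [h] at h1
        exact absurd (Nat.dvd_one.1 h1) (hp j List.mem_cons_self).one_lt.ne'
      | cons j' l' =>
        cases v' with
        | nil => simp at hl'
        | cons y' v' =>
          have hj := hp j List.mem_cons_self
          have hj' := hp' j' List.mem_cons_self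
          rw [List.pairwise_cons] at hs hs'
          have h1 : j ≤ j' := by
            have h2 := dvd_qq (y :: v) hv (j :: l) hl j List.mem_cons_self
            rw [h] at h2
            rcases List.mem_cons.1 (dvd_mem hj _ _ hp' h2) with h3 | h3
            · exact h3.le
            · exact (hs'.1 j h3).le
          have h2 : j' ≤ j := by
            have h2 := dvd_qq (y' :: v') hv' (j' :: l') hl' j' List.mem_cons_self
            rw [← h] at h2
            rcases List.mem_cons.1 (dvd_mem hj' _ _ hp h2) with h3 | h3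
            · exact h3.le
            · exact (hs.1 j' h3).le
          have h3 : j = j' := le_antisymm h1 h2
          subst h3
          rw [qq_cons, qq_cons] at h
          have hpl : ∀ x ∈ l, x.Prime := fun x hx => hp x (List.mem_cons_of_mem _ hx)
          have hpl' : ∀ x ∈ l', x.Prime := fun x hx => hp' x (List.mem_cons_of_mem _ hx)
          have h4 : ¬ j ∣ qq v l := fun h5 => absurd (hs.1 j (dvd_mem hj _ _ hpl h5)) (lt_irrefl j)
          have h4' : ¬ j ∣ qq v' l' := fun h5 =>
            absurd (hs'.1 j (dvd_mem hj _ _ hpl' h5)) (lt_irrefl j)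
          have h5 : y.1 = y'.1 := by
            rcases lt_trichotomy y.1 y'.1 with h6 | h6 | h6
            · exfalso
              apply h4
              obtain ⟨d, hd⟩ := Nat.exists_eq_add_of_lt h6
              rw [hd, show y.1 + d + 1 = y.1 + (d + 1) by ring, pow_add, mul_assoc] at h
              have h7 := Nat.eq_of_mul_eq_mul_left (Nat.pow_pos hj.pos) h
              rw [h7, pow_succ]
              exact dvd_mul_of_dvd_left (dvd_mul_left _ _) _
            · exact h6
            · exfalso
              apply h4'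
              obtain ⟨d, hd⟩ := Nat.exists_eq_add_of_lt h6
              rw [hd, show y'.1 + d + 1 = y'.1 + (d + 1) by ring, pow_add, mul_assoc] at h
              have h7 := Nat.eq_of_mul_eq_mul_left (Nat.pow_pos hj.pos) h
              rw [← h7, pow_succ]
              exact dvd_mul_of_dvd_left (dvd_mul_left _ _) _
          rw [h5] at h
          have h6 := Nat.eq_of_mul_eq_mul_left (Nat.pow_pos hj.pos) h
          obtain ⟨h7, h8⟩ := ih v' l l' (by simpa using hl) (by simpa using hl')
            (fun z hz => hv z (List.mem_cons_of_mem _ hz))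
            (fun z hz => hv' z (List.mem_cons_of_mem _ hz)) hpl hpl' hs.2 hs'.2 h6
          rw [h7, List.map_cons, List.map_cons, h8, h5]
          exact ⟨rfl, rfl⟩

lemma qq_congr (v : Wd) : ∀ (v' : Wd) (l : List ℕ), v.map Prod.fst = v'.map Prod.fst →
    qq v l = qq v' l := by
  induction v with
  | nil =>
    intro v' l h
    rw [List.map_nil] at h
    rw [List.map_eq_nil_iff.1 h.symm]
  | cons y v ih =>
    intro v' l h
    cases v' with
    | nil => simp at h
    | cons y' v' =>
      rw [List.map_cons, List.map_cons, List.cons.injEq] at h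
      cases l with
      | nil => simp [qq]
      | cons j l => rw [qq_cons, qq_cons, ih v' l h.2, h.1]

lemma bb_ofFn (v : Wd) : ∀ (k : ℕ), v.length = k → ∀ p : Fin k → ℕ,
    bb v (List.ofFn p) = ∏ i : Fin k, p i ^ (v.getD i (0, 0)).2 := by
  induction v with
  | nil =>
    intro k hk p
    rw [List.length_nil] at hk
    subst hk
    simp [bb]
  | cons y v ih =>
    intro k hk p
    rw [List.length_cons] at hk
    subst hk
    rw [List.ofFn_succ, bb_cons, Fin.prod_univ_succ, ih _ rfl]
    simp

/-- **a small index with a nonzero coefficient** -/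
theorem small (A J x : ℕ) (V : Finset Wd) (c : Wd → ℤ)
    (hV : ∀ v ∈ V, (∀ y ∈ v, 1 ≤ y.1 ∧ y.2 ≤ J) ∧ wt v ≤ A) (hc : ∃ v ∈ V, c v ≠ 0)
    (hx1 : 1 ≤ x) (hx : ∀ m, m < A * (J + 1) → Nat.nth Nat.Prime m ≤ x) :
    ∃ q, 1 ≤ q ∧ q ≤ x ^ A ∧ Fq V c (q + 1) q ≠ 0 := by
  classical
  obtain ⟨v0, hv0', hmin⟩ := Finset.exists_min_image (V.filter fun v => c v ≠ 0) wt (by
    obtain ⟨v, h1, h2⟩ := hc
    exact ⟨v, Finset.mem_filter.2 ⟨h1, h2⟩⟩)
  rw [Finset.mem_filter] at hv0'
  obtain ⟨hv0, hc0⟩ := hv0'
  set k : ℕ := v0.length with hk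
  have hV1 : ∀ v ∈ V, ∀ y ∈ v, 1 ≤ y.1 := fun v hv y hy => ((hV v hv).1 y hy).1
  have hkA : k ≤ A := (length_le_wt (hV1 v0 hv0)).trans (hV v0 hv0).2
  -- the polynomial
  set V0 : Finset Wd := V.filter fun v => v.map Prod.fst = v0.map Prod.fst with hV0
  have hlen : ∀ v ∈ V0, v.length = k := by
    intro v hv
    rw [hV0, Finset.mem_filter] at hv
    have h1 := congrArg List.length hv.2
    rwa [List.length_map, List.length_map] at h1
  set e : Wd → (Fin k →₀ ℕ) := fun v => Finsupp.equivFunOnFinite.symm
    (fun i : Fin k => (v.getD i (0, 0)).2) with he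
  have he1 : ∀ v i, e v i = (v.getD i (0, 0)).2 := fun v i => rfl
  have hinj : ∀ v ∈ V0, e v = e v0 → v = v0 := by
    intro v hv h
    have hl := hlen v hv
    have hf := (Finset.mem_filter.1 hv).2
    refine List.ext_getElem hl fun i hi hi' => ?_
    have h1 : e v ⟨i, hi'⟩ = e v0 ⟨i, hi'⟩ := by rw [h]
    rw [he1, he1] at h1
    simp only at h1
    rw [List.getD_eq_getElem _ _ hi, List.getD_eq_getElem _ _ hi'] at h1
    have h2 : (v.map Prod.fst)[i]'(by rwa [List.length_map]) =
        (v0.map Prod.fst)[i]'(by rwa [List.length_map]) := by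
      simp only [hf]
    rw [List.getElem_map, List.getElem_map] at h2
    exact Prod.ext h2 h1
  set P : MvPolynomial (Fin k) ℝ := ∑ v ∈ V0, MvPolynomial.monomial (e v) (c v : ℝ) with hP
  have hv00 : v0 ∈ V0 := Finset.mem_filter.2 ⟨hv0, rfl⟩
  have hP0 : P ≠ 0 := by
    intro h
    have h1 : P.coeff (e v0) = c v0 := by
      rw [hP, MvPolynomial.coeff_sum, Finset.sum_eq_single v0]
      · rw [MvPolynomial.coeff_monomial, if_pos rfl]
      · intro v hv hne
        rw [MvPolynomial.coeff_monomial, if_neg (fun h' => hne (hinj v hv h'))]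
      · intro h'
        exact absurd hv00 h'
    rw [h, MvPolynomial.coeff_zero] at h1
    exact hc0 (by exact_mod_cast h1.symm)
  have hdeg : ∀ i, P.degreeOf i < J + 1 := by
    intro i
    refine Nat.lt_succ_of_le (MvPolynomial.degreeOf_le_iff.2 fun M hM => ?_)
    have h1 := MvPolynomial.support_sum hM
    rw [Finset.mem_biUnion] at h1
    obtain ⟨v, hv, h2⟩ := h1
    have h3 := MvPolynomial.support_monomial_subset h2
    rw [Finset.mem_singleton] at h3
    rw [h3, he1]
    by_cases hi : (i : ℕ) < v.length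
    · rw [List.getD_eq_getElem _ _ hi]
      exact ((hV v (Finset.mem_filter.1 hv).1).1 _ (List.getElem_mem hi)).2
    · exact absurd (i.2.trans_le (hlen v hv).ge) hi
  -- the primes
  set pr : Fin k → Fin (J + 1) → ℕ := fun i t =>
    Nat.nth Nat.Prime ((k - 1 - (i : ℕ)) * (J + 1) + (t : ℕ)) with hpr
  have hinf : (setOf Nat.Prime).Infinite := Nat.infinite_setOf_prime
  have hprp : ∀ i t, (pr i t).Prime := fun i t => Nat.prime_nth_prime _
  have hprinj : ∀ i, Function.Injective (pr i) := by
    intro i t t' h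
    have h1 := (Nat.nth_strictMono hinf).injective h
    apply Fin.ext
    omega
  set S : Fin k → Finset ℝ := fun i => Finset.univ.image fun t => ((pr i t : ℝ))⁻¹ with hS
  have hScard : ∀ i, (S i).card = J + 1 := by
    intro i
    rw [hS]
    simp only
    rw [Finset.card_image_of_injective, Finset.card_univ, Fintype.card_fin]
    intro t t' h
    have h1 : ((pr i t : ℕ) : ℝ) = (pr i t' : ℕ) := inv_injective h
    exact hprinj i (by exact_mod_cast h1)
  obtain ⟨z, hz, hzP⟩ : ∃ z : Fin k → ℝ, (∀ i, z i ∈ S i) ∧ MvPolynomial.eval z P ≠ 0 := by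
    by_contra hcon
    push Not at hcon
    exact hP0 (MvPolynomial.eq_zero_of_eval_zero_at_prod_finset P S
      (fun i => by rw [hScard]; exact hdeg i) hcon)
  have hz' : ∀ i, ∃ t, ((pr i t : ℝ))⁻¹ = z i := by
    intro i
    have h1 := hz i
    rw [hS] at h1
    simp only at h1
    rw [Finset.mem_image] at h1
    obtain ⟨t, _, ht⟩ := h1
    exact ⟨t, ht⟩
  choose t ht using hz'
  set p : Fin k → ℕ := fun i => pr i (t i) with hp
  have hpp : ∀ i, (p i).Prime := fun i => hprp i _
  have hpx : ∀ i, p i ≤ x := by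
    intro i
    refine hx _ ?_
    have h1 := (t i).2
    have h2 : (k - 1 - (i : ℕ) + 1) * (J + 1) ≤ A * (J + 1) :=
      Nat.mul_le_mul_right _ (by have := i.2; omega)
    have h3 : (k - 1 - (i : ℕ) + 1) * (J + 1) = (k - 1 - (i : ℕ)) * (J + 1) + (J + 1) := by ring
    omega
  have hpdec : ∀ i i' : Fin k, i < i' → p i > p i' := by
    intro i i' h
    refine Nat.nth_strictMono hinf ?_
    have h0 : (i : ℕ) < i' := h
    have h1 := (t i').2
    have h2 : (k - 1 - (i' : ℕ) + 1) * (J + 1) ≤ (k - 1 - (i : ℕ)) * (J + 1) :=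
      Nat.mul_le_mul_right _ (by have := i'.2; omega)
    have h3 : (k - 1 - (i' : ℕ) + 1) * (J + 1) = (k - 1 - (i' : ℕ)) * (J + 1) + (J + 1) := by ring
    omega
  set l0 : List ℕ := List.ofFn p with hl0
  have hl0len : l0.length = k := List.length_ofFn
  have hl0p : ∀ y ∈ l0, y.Prime := by
    intro y hy
    rw [hl0, List.mem_ofFn] at hy
    obtain ⟨i, rfl⟩ := hy
    exact hpp i
  have hl0x : ∀ y ∈ l0, y ≤ x := by
    intro y hy
    rw [hl0, List.mem_ofFn] at hy
    obtain ⟨i, rfl⟩ := hy
    exact hpx i
  have hl0s : l0.Pairwise (· > ·) := by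
    rw [hl0, List.pairwise_ofFn]
    exact fun i j h => hpdec i j h
  set M : ℕ := qq v0 l0 with hM
  have hM1 : 1 ≤ M := qq_pos v0 l0 fun y hy => (hl0p y hy).two_le
  have hMx : M ≤ x ^ A := (qq_le v0 l0 hl0x hx1).trans (Nat.pow_le_pow_right hx1 (hV v0 hv0).2)
  refine ⟨M, hM1, hMx, ?_⟩
  -- the coefficient
  have hmem : l0 ∈ dc k (M + 1) := by
    rw [mem_dc]
    refine ⟨hl0len, hl0s, fun y hy => ⟨(hl0p y hy).two_le, ?_⟩⟩
    have := Nat.le_of_dvd hM1 (dvd_qq v0 (hV1 v0 hv0) l0 hl0len y hy)
    omega
  have hF : Fq V c (M + 1) M = ∑ v ∈ V0, (c v : ℝ) / (bb v l0 : ℝ) := by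
    unfold Fq
    rw [hV0, Finset.sum_filter]
    refine Finset.sum_congr rfl fun v hv => ?_
    by_cases hcv : c v = 0
    · rw [hcv]
      simp
    · have hid : ∀ l ∈ (dc v.length (M + 1)).filter (fun l => qq v l = M),
          l = l0 ∧ v.map Prod.fst = v0.map Prod.fst := by
        intro l hl
        rw [Finset.mem_filter, mem_dc] at hl
        obtain ⟨⟨h1, h2, h3⟩, h4⟩ := hl
        have h5 := om_ge v l h1 (fun y hy => (h3 y hy).1) (hV1 v hv)
        have h6 := om_eq v0 l0 hl0len hl0p
        have h7 := hmin v (Finset.mem_filter.2 ⟨hv, hcv⟩)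
        have h8 : ∀ y ∈ l, y.Prime := h5.2 (by rw [h4, h6]; exact h7)
        exact ident v v0 l l0 h1 hl0len (hV1 v hv) (hV1 v0 hv0) h8 hl0p h2 hl0s h4
      by_cases hfst : v.map Prod.fst = v0.map Prod.fst
      · rw [if_pos hfst, Finset.sum_eq_single l0]
        · intro l hl hne
          exact absurd (hid l hl).1 hne
        · intro h
          exfalso
          apply h
          rw [Finset.mem_filter]
          have h1 : v.length = k := by
            have h2 := congrArg List.length hfst
            rwa [List.length_map, List.length_map] at h2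
          rw [h1]
          exact ⟨hmem, qq_congr v v0 l0 hfst⟩
      · rw [if_neg hfst]
        refine Finset.sum_eq_zero fun l hl => ?_
        exact absurd (hid l hl).2 hfst
  rw [hF]
  have hval : MvPolynomial.eval z P = ∑ v ∈ V0, (c v : ℝ) / (bb v l0 : ℝ) := by
    rw [hP, map_sum]
    refine Finset.sum_congr rfl fun v hv => ?_
    rw [MvPolynomial.eval_monomial, Finsupp.prod_fintype _ _ (fun _ => pow_zero _),
      div_eq_mul_inv, hl0, bb_ofFn v k (hlen v hv) p]
    congr 1
    push_cast
    rw [← Finset.prod_inv_distrib]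
    refine Finset.prod_congr rfl fun i _ => ?_
    rw [he1, ← ht i, inv_pow]
  rw [← hval]
  exact hzP

end Pool.Agent.R404.WZ
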