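import Pool.Agent.R404.WZ.B
import Pool.Agent.R404.WZ.C
import Pool.Agent.R404.DZ.C

/-!
# Multiple zeta values with all arguments near multiples of `N`: the asymptotic lower bound
-/

set_option autoImplicit false

namespace Pool.Agent.R404.WZ

open Finset
open Pool.Agent.R404.MZ (two_pow_le rpow_large evA evB asyH)
open Pool.Agent.R404.DZ (primes_small)
open Pool.Agent.Y760.ZG (mz)
open Pool.Agent.Y777.AM (ht)

/-- **the explicit lower bound** -/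
theorem explicitW (N D J x : ℕ) (W : Finset Wd) (c : Wd → ℤ) (hc : ∃ w ∈ W, c w ≠ 0)
    (hW : ∀ w ∈ W, (∀ y ∈ w, 1 ≤ y.1 ∧ y.2 ≤ J) ∧ wt w ≤ D) (hx1 : 1 ≤ x)
    (hx : ∀ m, m < D * (J + 1) → Nat.nth Nat.Prime m ≤ x)
    (Cs : ℝ) (hCs : 1 ≤ Cs) (hC : ∑ w ∈ W, |(c w : ℝ)| ≤ Cs) (hN : D + 2 ≤ N)
    (hcond : 4 * Cs * (((x ^ D : ℕ) : ℝ) + 1) ^ (D + 2 + J) ≤ 2 ^ (N / x ^ D)) :
    (2 * ((x ^ D : ℕ) : ℝ) ^ (N + J))⁻¹ ≤ |∑ w ∈ W, (c w : ℝ) * mz (ar N w)| :=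
  low N D J (x ^ D) W c hW Cs hCs hC hN hcond
    (small D J x (W1 W) (c1 W c) (W1_prop W hW) (c1_ne W c hc) hx1 hx)

/-- **the asymptotic lower bound** -/
theorem asyW (D : ℕ) (θ γ ε κ C : ℝ) (hθ : 0 < θ) (hθD : (D + 1) * θ < 1) (hγ : γ + D * θ < 1)
    (hε : D * θ < ε) :
    ∃ N0 : ℕ, ∀ N : ℕ, N0 ≤ N → ∀ J : ℕ, (J : ℝ) ≤ (N : ℝ) ^ θ →
      ∀ W : Finset Wd, (∀ w ∈ W, (∀ y ∈ w, 1 ≤ y.1 ∧ y.2 ≤ J) ∧ wt w ≤ D) →
      ∀ c : Wd → ℤ, (∃ w ∈ W, c w ≠ 0) → ∑ w ∈ W, |(c w : ℝ)| ≤ (2 : ℝ) ^ ((N : ℝ) ^ γ) →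
      ∀ H : Finset (List ℕ), (∀ h ∈ H, (∀ m ∈ h, 1 ≤ m) ∧ (∀ x ∈ h.head?, 2 ≤ x) ∧
        (h.sum : ℝ) ≤ κ * N ∧ ε * N ≤ ht h) → ∀ b : List ℕ → ℝ, (∀ h ∈ H, |b h| ≤ C ^ N) →
      ((N : ℝ) ^ (ε * N))⁻¹ <
        |∑ w ∈ W, (c w : ℝ) * mz (ar N w) - ∑ h ∈ H, b h * mz h| := by
  have hD0 : (0 : ℝ) ≤ D := Nat.cast_nonneg D
  obtain ⟨δ, hδ1, hδ2⟩ := exists_between (lt_min hε (by linarith : D * θ < 1 - γ))
  rw [lt_min_iff] at hδ2
  have hδ0 : 0 < δ := lt_of_le_of_lt (by positivity) hδ1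
  set δ' : ℝ := (δ + ε) / 2 with hδ'
  set ρ : ℝ := min ((δ - D * θ) / (D + 1)) ((1 - (D + 1) * θ) / (2 * (D + 1))) with hρ
  have hρ0 : 0 < ρ := lt_min (div_pos (by linarith) (by linarith))
    (div_pos (by linarith) (by linarith))
  have hρ1 : ρ * (D + 1) ≤ δ - D * θ := by
    rw [← le_div_iff₀ (by linarith)]
    exact min_le_left _ _
  have hρ2 : ρ * (2 * (D + 1)) ≤ 1 - (D + 1) * θ := by
    rw [← le_div_iff₀ (by linarith)]
    exact min_le_right _ _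
  set θ' : ℝ := θ + ρ with hθ'
  have hDθ' : D * θ' ≤ δ := by
    rw [hθ']
    nlinarith
  set τ : ℝ := (1 - (D + 1) * θ') / 2 with hτ
  have hτ0 : 0 < τ := by
    rw [hτ, hθ']
    nlinarith
  have hτ1 : τ < 1 := by
    rw [hτ]
    have : 0 < (D + 1) * θ' := by positivity
    linarith
  have hθ1 : θ < 1 := by nlinarith
  obtain ⟨N1, h1⟩ := evA δ γ τ hδ0 (by linarith [hδ2.2]) hτ0
  obtain ⟨N2, h2⟩ := evB θ δ (δ' - δ) hθ1 hθ (by rw [hδ']; linarith [hδ2.1])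
  obtain ⟨N3, h3⟩ := primes_small D θ θ' hθ (by rw [hθ']; linarith)
  obtain ⟨N4, h4⟩ := rpow_large hτ0 ((D : ℝ) + 3)
  obtain ⟨N5, h5⟩ := asyH κ C δ' ε (by rw [hδ']; linarith [hδ2.1]) (by rw [hδ']; linarith [hδ2.1])
  refine ⟨max (max (max N1 N2) (max N3 N4)) (max N5 (D + 8)), fun N hN J hJ W hPD c hP hPC H hH b
    hb => ?_⟩
  have hN1 := h1 N (by omega)
  have hN2 := h2 N (by omega)
  have hN3 := h3 N (by omega) J hJ
  have hN4 := h4 N (by omega)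
  have hN5 := h5 N (by omega) H hH b hb
  have hN8 : D + 8 ≤ N := by omega
  have hNr : (8 : ℝ) ≤ N := by
    have : 8 ≤ N := by omega
    exact_mod_cast this
  have hNp : (0 : ℝ) < N := by linarith
  have hNone : (1 : ℝ) ≤ N := by linarith
  have hl2 : 0 < Real.log 2 := Real.log_pos (by norm_num)
  have hlN : 0 ≤ Real.log N := Real.log_nonneg (by linarith)
  set Y : ℝ := (N : ℝ) ^ θ' with hY
  have hY1 : 1 ≤ Y := Real.one_le_rpow hNone (by linarith)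
  have hx1 : 1 ≤ ⌊Y⌋₊ := by
    rw [Nat.one_le_floor_iff]
    exact hY1
  set X : ℝ := (N : ℝ) ^ δ with hX
  have hX1 : 1 ≤ X := Real.one_le_rpow hNone hδ0.le
  set L : ℝ := δ * Real.log N / Real.log 2 with hL
  have hL0 : 0 ≤ L := by positivity
  set K : ℕ := ⌊Y⌋₊ ^ D with hK
  have hK1 : 1 ≤ K := Nat.one_le_pow _ _ hx1
  have hK1r : (1 : ℝ) ≤ K := by exact_mod_cast hK1
  have hKY : (K : ℝ) ≤ Y ^ D := by
    rw [hK]
    push_cast
    exact pow_le_pow_left₀ (Nat.cast_nonneg _) (Nat.floor_le (by linarith)) _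
  have hYD : Y ^ D = (N : ℝ) ^ (D * θ') := by
    rw [hY, ← Real.rpow_natCast, ← Real.rpow_mul hNp.le, mul_comm]
  have hKX : (K : ℝ) ≤ X := by
    rw [hYD] at hKY
    exact hKY.trans (Real.rpow_le_rpow_of_exponent_le hNone hDθ')
  set P' : ℝ := (N : ℝ) ^ (1 - τ) with hP'
  have h2τ : (N : ℝ) ^ ((D + 1) * θ') * (N : ℝ) ^ τ = P' := by
    rw [← Real.rpow_add hNp, hP']
    congr 1
    rw [hτ]
    ring
  have hτN : (1 : ℝ) ≤ (N : ℝ) ^ τ := Real.one_le_rpow hNone hτ0.le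
  have hKJ : (K : ℝ) * (D + 2 + J) ≤ P' := by
    have hJY : (J : ℝ) ≤ Y := hJ.trans (Real.rpow_le_rpow_of_exponent_le hNone (by
      rw [hθ']
      linarith))
    calc (K : ℝ) * (D + 2 + J) ≤ Y ^ D * ((D + 3) * Y) := by
          refine mul_le_mul hKY ?_ (by positivity) (by positivity)
          nlinarith
      _ = (D + 3) * (N : ℝ) ^ ((D + 1) * θ') := by
          rw [hYD]
          have h6 : (N : ℝ) ^ ((D + 1) * θ') = (N : ℝ) ^ (D * θ') * Y := by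
            rw [hY, ← Real.rpow_add hNp]
            congr 1
            ring
          rw [h6]
          ring
      _ ≤ (N : ℝ) ^ τ * (N : ℝ) ^ ((D + 1) * θ') :=
          mul_le_mul_of_nonneg_right hN4 (by positivity)
      _ = P' := by rw [mul_comm, h2τ]
  have hKP : (K : ℝ) ≤ P' := by
    have h6 : (K : ℝ) * 1 ≤ (K : ℝ) * (D + 2 + J) := by
      refine mul_le_mul_of_nonneg_left ?_ (by linarith)
      have : (0 : ℝ) ≤ J := Nat.cast_nonneg J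
      linarith
    linarith
  have hKγ : (K : ℝ) * (N : ℝ) ^ γ ≤ (N : ℝ) ^ (δ + γ) := by
    rw [Real.rpow_add hNp]
    exact mul_le_mul_of_nonneg_right hKX (Real.rpow_nonneg hNp.le _)
  have hP'0 : 0 ≤ P' := Real.rpow_nonneg hNp.le _
  have hmain0 : (K : ℝ) * (3 + (N : ℝ) ^ γ + (D + 2 + J) * (1 + L)) ≤ N := by
    have e1 : (K : ℝ) * ((D + 2 + J) * (1 + L)) ≤ P' * (1 + L) := by
      rw [← mul_assoc]
      exact mul_le_mul_of_nonneg_right hKJ (by linarith)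
    have e2 : (K : ℝ) * (3 + (N : ℝ) ^ γ + (D + 2 + J) * (1 + L)) =
        3 * K + K * (N : ℝ) ^ γ + K * ((D + 2 + J) * (1 + L)) := by ring
    have e3 : (21 + 8 * L) * P' = 3 * P' + P' * (1 + L) + (17 + 7 * L) * P' := by ring
    have e4 : 0 ≤ (17 + 7 * L) * P' := by positivity
    rw [e2]
    linarith
  set Cs : ℝ := (2 : ℝ) ^ ((N : ℝ) ^ γ) with hCs
  have hCs1 : 1 ≤ Cs := Real.one_le_rpow (by norm_num) (Real.rpow_nonneg hNp.le _)
  have hcond : 4 * Cs * ((K : ℝ) + 1) ^ (D + 2 + J) ≤ 2 ^ (N / K) := by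
    have hy2 : (2 : ℝ) ^ (1 + L) = 2 * X := by
      rw [Real.rpow_add two_pos, Real.rpow_one, hX]
      congr 1
      rw [Real.rpow_def_of_pos two_pos, Real.rpow_def_of_pos hNp, hL]
      congr 1
      field_simp
    have e3 : ((K : ℝ) + 1) ≤ (2 : ℝ) ^ (1 + L) := by
      rw [hy2]
      linarith
    have e4 : ((K : ℝ) + 1) ^ (D + 2 + J) ≤ (2 : ℝ) ^ ((D + 2 + J) * (1 + L)) := by
      refine (pow_le_pow_left₀ (by linarith) e3 _).trans ?_
      rw [← Real.rpow_natCast, ← Real.rpow_mul two_pos.le]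
      refine Real.rpow_le_rpow_of_exponent_le one_le_two (le_of_eq ?_)
      push_cast
      ring
    have e5 : 4 * Cs = (2 : ℝ) ^ (2 + (N : ℝ) ^ γ) := by
      rw [hCs, Real.rpow_add two_pos]
      norm_num
    have e6 : (2 : ℝ) ^ (2 + (N : ℝ) ^ γ + (D + 2 + J) * (1 + L)) ≤ 2 ^ (N / K) := by
      rw [← Real.rpow_natCast 2 (N / K)]
      refine Real.rpow_le_rpow_of_exponent_le one_le_two ?_
      have e7 : (N : ℝ) < (K : ℝ) * (((N / K : ℕ) : ℝ) + 1) := by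
        have e8 := Nat.lt_mul_div_succ N (by omega : 0 < K)
        exact_mod_cast e8
      have e10 : (K : ℝ) * (3 + (N : ℝ) ^ γ + (D + 2 + J) * (1 + L)) ≤
          (K : ℝ) * (((N / K : ℕ) : ℝ) + 1) := by linarith
      have e12 := le_of_mul_le_mul_left e10 (by linarith)
      linarith
    refine le_trans ?_ e6
    rw [Real.rpow_add two_pos, ← e5]
    exact mul_le_mul_of_nonneg_left e4 (by positivity)
  have hmain := explicitW N D J ⌊Y⌋₊ W c hP hPD hx1 hN3 Cs hCs1 hPC (by omega) hcond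
  rw [← hK] at hmain
  have h6 : 2 * ((N : ℝ) ^ (δ' * N))⁻¹ ≤ (2 * (K : ℝ) ^ (N + J))⁻¹ := by
    have e1 : (K : ℝ) ^ (N + J) ≤ (N : ℝ) ^ (δ * (N + (N : ℝ) ^ θ)) := by
      calc (K : ℝ) ^ (N + J) ≤ X ^ (N + J) := pow_le_pow_left₀ (by linarith) hKX _
        _ = X ^ (((N + J : ℕ) : ℝ)) := (Real.rpow_natCast _ _).symm
        _ ≤ X ^ ((N : ℝ) + (N : ℝ) ^ θ) := by
            refine Real.rpow_le_rpow_of_exponent_le hX1 ?_
            push_cast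
            linarith
        _ = _ := by rw [hX, ← Real.rpow_mul hNp.le]
    have e2 : 4 * (K : ℝ) ^ (N + J) ≤ (N : ℝ) ^ (δ' * N) := by
      calc 4 * (K : ℝ) ^ (N + J) ≤ (N : ℝ) ^ (2 : ℝ) * (N : ℝ) ^ (δ * (N + (N : ℝ) ^ θ)) := by
            refine mul_le_mul ?_ e1 (by positivity) (by positivity)
            rw [Real.rpow_two]
            nlinarith
        _ = (N : ℝ) ^ (2 + δ * (N + (N : ℝ) ^ θ)) := by rw [← Real.rpow_add hNp]
        _ ≤ _ := by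
            refine Real.rpow_le_rpow_of_exponent_le (by linarith) ?_
            nlinarith
    have e3 : 0 < (K : ℝ) ^ (N + J) := by positivity
    calc 2 * ((N : ℝ) ^ (δ' * N))⁻¹ ≤ 2 * (4 * (K : ℝ) ^ (N + J))⁻¹ := by
          refine mul_le_mul_of_nonneg_left ?_ two_pos.le
          exact inv_anti₀ (by positivity) e2
      _ = (2 * (K : ℝ) ^ (N + J))⁻¹ := by
          rw [mul_inv, mul_inv]
          ring
  have hPd : 0 < (N : ℝ) ^ (δ' * N) := Real.rpow_pos_of_pos hNp _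
  have h7 : ((N : ℝ) ^ (ε * N))⁻¹ < ((N : ℝ) ^ (δ' * N))⁻¹ := by
    refine inv_strictAnti₀ hPd ?_
    refine Real.rpow_lt_rpow_of_exponent_lt (by linarith) ?_
    have : δ' < ε := by rw [hδ']; linarith [hδ2.1]
    nlinarith
  have h8 := abs_sub_abs_le_abs_sub
    (∑ w ∈ W, (c w : ℝ) * mz (ar N w)) (∑ h ∈ H, b h * mz h)
  linarith

end Pool.Agent.R404.WZ
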