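import Pool.Agent.R404.WZ.D
import Pool.Agent.R404.DZ.K

/-!
# Many multiple zeta values of a given weight and depth
-/

set_option autoImplicit false

namespace Pool.Agent.R404.WZ

open Finset
open Pool.Agent.R404.MZ (rpow_large)
open Pool.Agent.R404.DZ (tuples)
open Pool.Agent.Y760.ZG (mz)
open Pool.Agent.Y777.AM (ht)

/-- the word of a tuple -/
def wd {D s : ℕ} (i : Fin D → Fin (s + 1)) : Wd := List.ofFn fun j => (1, (i j : ℕ))

lemma ar_wd {D s : ℕ} (N : ℕ) (i : Fin D → Fin (s + 1)) :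
    ar N (wd i) = List.ofFn fun j => N + (i j : ℕ) := by
  unfold ar wd
  rw [List.map_ofFn]
  congr 1
  funext j
  simp

lemma wt_wd {D s : ℕ} (i : Fin D → Fin (s + 1)) : wt (wd i) = D := by
  unfold wt wd
  rw [List.map_ofFn, List.sum_ofFn]
  simp

/-- **many multiple zeta values of a given weight and depth** -/
theorem asyM (D : ℕ) (hD : 2 ≤ D) (θ γ ε κ C η : ℝ) (hθ : 0 < θ) (hθD : (D + 1) * θ < 1)
    (hγ : γ + D * θ < 1) (hε : θ < ε) (hη : 0 < η) (hηθ : η < (D - 1) * θ) :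
    ∃ k0 : ℕ, ∀ k : ℕ, k0 ≤ k → ∃ T : Finset (List ℕ), (k : ℝ) ^ η ≤ T.card ∧
      (∀ w ∈ T, w.length = D ∧ w.sum = k ∧ ∀ x ∈ w, k ≤ 2 * D * x) ∧
      ∀ (a0 : ℤ) (c : List ℕ → ℤ), (a0 ≠ 0 ∨ ∃ w ∈ T, c w ≠ 0) →
      |(a0 : ℝ)| + ∑ w ∈ T, |(c w : ℝ)| ≤ (2 : ℝ) ^ ((k : ℝ) ^ γ) →
      ∀ H : Finset (List ℕ), (∀ h ∈ H, (∀ m ∈ h, 1 ≤ m) ∧ (∀ x ∈ h.head?, 2 ≤ x) ∧
        (h.sum : ℝ) ≤ κ * k ∧ ε * k ≤ ht h) → ∀ b : List ℕ → ℝ, (∀ h ∈ H, |b h| ≤ C ^ k) →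
      ((k : ℝ) ^ (ε * k))⁻¹ <
        |a0 + ∑ w ∈ T, (c w : ℝ) * mz w - ∑ h ∈ H, b h * mz h| := by
  classical
  have hDr : (2 : ℝ) ≤ D := by exact_mod_cast hD
  obtain ⟨θ1, ha1, ha2⟩ := exists_between
    ((div_lt_iff₀ (by linarith : (0 : ℝ) < D - 1)).2 (by linarith : η < θ * (D - 1)))
  rw [div_lt_iff₀ (by linarith)] at ha1
  have hθ10 : 0 < θ1 := by
    by_contra h
    push Not at h
    nlinarith
  obtain ⟨γ', hg1, hg2⟩ := exists_between (max_lt (by linarith : γ < 1 - D * θ)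
    (by nlinarith : (0 : ℝ) < 1 - D * θ))
  rw [max_lt_iff] at hg1
  set C' : ℝ := (max 1 |C|) ^ (2 * D) with hC'
  obtain ⟨N0, h0⟩ := asyW D θ γ' (D * ε) (2 * D * |κ|) C' hθ hθD (by linarith)
    (mul_lt_mul_of_pos_left hε (by linarith))
  have hθ1 : θ < 1 := by nlinarith
  obtain ⟨k1, h1⟩ := rpow_large (e := 1 - θ1) (by linarith) (2 * ((D : ℝ) + 1))
  obtain ⟨k2, h2⟩ := rpow_large (e := θ - θ1) (by linarith) (2 * (D : ℝ) * (D + 1))
  obtain ⟨k3, h3⟩ := rpow_large hθ10 (2 * (1 + (D : ℝ) ^ 2))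
  obtain ⟨k4, h4⟩ := rpow_large (e := θ1 * (D - 1) - η) (by linarith)
    ((2 * (D : ℝ) ^ 2) ^ (D - 1))
  obtain ⟨k5, h5⟩ := rpow_large (e := γ' - γ) (by linarith [hg1.1]) (2 * (D : ℝ))
  refine ⟨max (max (max k1 k2) (max k3 k4)) (max k5 (2 * D * N0 + 1)), fun k hk => ?_⟩
  have g1 := h1 k (by omega)
  have g2 := h2 k (by omega)
  have g3 := h3 k (by omega)
  have g4 := h4 k (by omega)
  have g5 := h5 k (by omega)
  have hkN : 2 * D * N0 + 1 ≤ k := by omega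
  have hk1 : (1 : ℝ) ≤ k := by
    have : 1 ≤ k := by omega
    exact_mod_cast this
  have hkp : (0 : ℝ) < k := by linarith
  set Y : ℝ := (k : ℝ) ^ θ1 with hY
  have hY1 : 1 ≤ Y := Real.one_le_rpow hk1 hθ10.le
  set s0 : ℕ := ⌊Y⌋₊ with hs0
  have hs0le : (s0 : ℝ) ≤ Y := Nat.floor_le (by linarith)
  have hs0lt : Y < (s0 : ℝ) + 1 := Nat.lt_floor_add_one Y
  have hYk : ((D : ℝ) + 1) * Y ≤ k / 2 := by
    have e1 : (k : ℝ) = (k : ℝ) ^ (1 - θ1) * Y := by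
      rw [hY, ← Real.rpow_add hkp]
      simp
    have e2 : 2 * ((D : ℝ) + 1) * Y ≤ (k : ℝ) ^ (1 - θ1) * Y :=
      mul_le_mul_of_nonneg_right g1 (by linarith)
    linarith
  have hs0k : (s0 : ℝ) + D ≤ k / 2 := by nlinarith
  have hs0k' : 2 * (s0 + D) ≤ k := by
    have e1 : (2 : ℝ) * ((s0 : ℝ) + D) ≤ k := by linarith
    exact_mod_cast e1
  set N : ℕ := (k - s0) / D with hN
  set s : ℕ := k - D * N with hs
  have hDpos : 0 < D := by omega
  have hDN : D * N ≤ k - s0 := Nat.mul_div_le _ _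
  have hDN2 : k - s0 < D * (N + 1) := Nat.lt_mul_div_succ _ hDpos
  have hmulN : D * (N + 1) = D * N + D := by ring
  have hs1 : s0 ≤ s := by omega
  have hs2 : s ≤ s0 + D := by omega
  have hks : D * N + s = k := by omega
  have hkDN : k ≤ 2 * D * N := by
    have e1 : 2 * D * N = 2 * (D * N) := by ring
    rw [e1]
    omega
  have hkDNr : (k : ℝ) ≤ 2 * D * N := by exact_mod_cast hkDN
  have hDNk : (D : ℝ) * N ≤ k := by
    have : D * N ≤ k := by omega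
    exact_mod_cast this
  have hN0 : N0 ≤ N := by
    by_contra hcon
    push Not at hcon
    have e1 : 2 * D * N ≤ 2 * D * N0 := Nat.mul_le_mul_left _ hcon.le
    omega
  have hNpos : 0 < N := by
    by_contra hcon
    have e1 : N = 0 := by omega
    rw [e1] at hkDN
    omega
  have hN1 : (1 : ℝ) ≤ N := by exact_mod_cast hNpos
  have hNp : (0 : ℝ) < N := by linarith
  have hkN' : (k : ℝ) / (2 * D) ≤ N := by
    rw [div_le_iff₀ (by linarith)]
    linarith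
  have hNk : (N : ℝ) ≤ k := by nlinarith
  have hpow : ∀ e : ℝ, 0 ≤ e → e ≤ 1 → (k : ℝ) ^ e / (2 * D) ≤ (N : ℝ) ^ e := by
    intro e he0 he1
    have e1 : ((k : ℝ) / (2 * D)) ^ e ≤ (N : ℝ) ^ e := Real.rpow_le_rpow (by positivity) hkN' he0
    refine le_trans ?_ e1
    rw [Real.div_rpow hkp.le (by linarith)]
    refine div_le_div_of_nonneg_left (by positivity) (by positivity) ?_
    calc (2 * (D : ℝ)) ^ e ≤ (2 * (D : ℝ)) ^ (1 : ℝ) :=
          Real.rpow_le_rpow_of_exponent_le (by linarith) he1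
      _ = _ := Real.rpow_one _
  have hsN : (s : ℝ) ≤ (N : ℝ) ^ θ := by
    refine le_trans ?_ (hpow θ hθ.le hθ1.le)
    rw [le_div_iff₀ (by linarith)]
    have e1 : (s : ℝ) ≤ s0 + D := by exact_mod_cast hs2
    have e2 : (k : ℝ) ^ θ = (k : ℝ) ^ (θ - θ1) * Y := by
      rw [hY, ← Real.rpow_add hkp]
      congr 1
      ring
    rw [e2]
    have e3 : 2 * (D : ℝ) * (D + 1) * Y ≤ (k : ℝ) ^ (θ - θ1) * Y :=
      mul_le_mul_of_nonneg_right g2 (by linarith)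
    have e4 : (s : ℝ) ≤ (D + 1) * Y := by nlinarith
    nlinarith
  set L : ℕ := s0 / (D * D) with hL
  have hDL : D * D * L ≤ s := (Nat.mul_div_le _ _).trans hs1
  have hLlow : Y / (2 * (D : ℝ) ^ 2) ≤ L := by
    have e1 : s0 < D * D * (L + 1) := Nat.lt_mul_div_succ _ (by positivity)
    have e2 : (s0 : ℝ) + 1 ≤ (D : ℝ) * D * (L + 1) := by exact_mod_cast e1
    rw [div_le_iff₀ (by positivity)]
    nlinarith
  obtain ⟨T', hT1, hT2⟩ := tuples D (by omega) L s hDL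
  set sh : (Fin D → Fin (s + 1)) → List ℕ := fun i => ar N (wd i) with hsh
  have hshe : ∀ i, sh i = List.ofFn fun j => N + (i j : ℕ) := fun i => ar_wd N i
  have hshinj : Function.Injective sh := by
    intro i i' h
    rw [hshe, hshe] at h
    have e0 := List.ofFn_injective h
    funext j
    have e1 : N + (i j : ℕ) = N + (i' j : ℕ) := congrFun e0 j
    apply Fin.ext
    omega
  refine ⟨T'.image sh, ?_, fun n hn => ?_, ?_⟩
  · rw [Finset.card_image_of_injective _ hshinj, hT1]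
    push_cast
    have e1 : (Y / (2 * (D : ℝ) ^ 2)) ^ (D - 1) ≤ (L : ℝ) ^ (D - 1) :=
      pow_le_pow_left₀ (by positivity) hLlow _
    refine le_trans ?_ e1
    rw [div_pow, le_div_iff₀ (by positivity)]
    have e2 : Y ^ (D - 1) = (k : ℝ) ^ (θ1 * (D - 1) - η) * (k : ℝ) ^ η := by
      rw [hY, ← Real.rpow_natCast, ← Real.rpow_mul hkp.le, ← Real.rpow_add hkp]
      congr 1
      rw [Nat.cast_sub (by omega)]
      push_cast
      ring
    rw [e2, mul_comm]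
    exact mul_le_mul_of_nonneg_right g4 (by positivity)
  · obtain ⟨i, hi, rfl⟩ := Finset.mem_image.1 hn
    obtain ⟨e1, e2⟩ := hT2 i hi
    rw [hshe]
    refine ⟨List.length_ofFn, ?_, fun x hx => ?_⟩
    · rw [List.sum_ofFn, Finset.sum_add_distrib, e2, Finset.sum_const, Finset.card_univ,
        Fintype.card_fin, smul_eq_mul]
      exact hks
    · rw [List.mem_ofFn] at hx
      obtain ⟨j, rfl⟩ := hx
      refine hkDN.trans (Nat.mul_le_mul_left _ ?_)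
      omega
  · intro a0 c hc hlen H hH b hb
    set c' : Wd → ℤ := fun w => if w = [] then a0 else c (ar N w) with hc'
    have hwne : ∀ i : Fin D → Fin (s + 1), (wd i : Wd) ≠ [] := by
      intro i h
      have e1 := congrArg List.length h
      rw [wd, List.length_ofFn, List.length_nil] at e1
      omega
    have hcw : ∀ i : Fin D → Fin (s + 1), c' (wd i) = c (sh i) := fun i => by
      rw [hc']
      simp only
      rw [if_neg (hwne i)]
    have hc0 : c' [] = a0 := by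
      rw [hc']
      simp
    have hnot : ([] : Wd) ∉ T'.image wd := by
      intro h
      obtain ⟨i, _, hi⟩ := Finset.mem_image.1 h
      exact hwne i hi
    have hwinj : Function.Injective (wd : (Fin D → Fin (s + 1)) → Wd) := by
      intro i i' h
      exact hshinj (congrArg (ar N) h)
    have hsumW : ∀ g : ℤ → Wd → ℝ, ∑ w ∈ insert [] (T'.image wd), g (c' w) w =
        g a0 [] + ∑ i ∈ T', g (c (sh i)) (wd i) := by
      intro g
      rw [Finset.sum_insert hnot, hc0, Finset.sum_image fun i _ i' _ h => hwinj h]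
      congr 1
      exact Finset.sum_congr rfl fun i _ => by rw [hcw]
    have hne : ∃ w ∈ insert [] (T'.image wd), c' w ≠ 0 := by
      rcases hc with hc | ⟨n, hn, h⟩
      · exact ⟨[], Finset.mem_insert_self _ _, by rw [hc0]; exact hc⟩
      · obtain ⟨i, hi, rfl⟩ := Finset.mem_image.1 hn
        exact ⟨wd i, Finset.mem_insert_of_mem (Finset.mem_image_of_mem _ hi), by
          rw [hcw]
          exact h⟩
    have hWp : ∀ w ∈ insert [] (T'.image wd), (∀ y ∈ w, 1 ≤ y.1 ∧ y.2 ≤ s) ∧ wt w ≤ D := by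
      intro w hw
      rw [Finset.mem_insert, Finset.mem_image] at hw
      rcases hw with rfl | ⟨i, _, rfl⟩
      · exact ⟨fun y hy => absurd hy List.not_mem_nil, by simp [wt]⟩
      · refine ⟨fun y hy => ?_, ?_⟩
        · rw [wd, List.mem_ofFn] at hy
          obtain ⟨j, rfl⟩ := hy
          refine ⟨le_refl 1, ?_⟩
          have := (i j).2
          simp only
          omega
        · rw [wt_wd]
    have hlen2 : ∑ w ∈ insert [] (T'.image wd), |(c' w : ℝ)| ≤ (2 : ℝ) ^ ((N : ℝ) ^ γ') := by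
      rw [hsumW (fun z _ => |(z : ℝ)|)]
      have e1 : ∑ i ∈ T', |(c (sh i) : ℝ)| = ∑ n ∈ T'.image sh, |(c n : ℝ)| := by
        rw [Finset.sum_image fun i _ i' _ h => hshinj h]
      rw [e1]
      refine hlen.trans ?_
      refine Real.rpow_le_rpow_of_exponent_le one_le_two ?_
      refine le_trans ?_ (hpow γ' hg1.2.le (by nlinarith))
      rw [le_div_iff₀ (by linarith)]
      have e2 : (k : ℝ) ^ γ' = (k : ℝ) ^ (γ' - γ) * (k : ℝ) ^ γ := by
        rw [← Real.rpow_add hkp]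
        congr 1
        ring
      rw [e2, mul_comm]
      exact mul_le_mul_of_nonneg_right g5 (by positivity)
    have hmain := h0 N hN0 s hsN (insert [] (T'.image wd)) hWp c' hne hlen2 H (fun h hh => by
      obtain ⟨f1, f2, f3, f4⟩ := hH h hh
      refine ⟨f1, f2, f3.trans ?_, ?_⟩
      · calc κ * k ≤ |κ| * k := mul_le_mul_of_nonneg_right (le_abs_self κ) hkp.le
          _ ≤ |κ| * (2 * D * N) := mul_le_mul_of_nonneg_left hkDNr (abs_nonneg _)
          _ = _ := by ring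
      · refine le_trans ?_ f4
        have : 0 < ε := hθ.trans hε
        nlinarith) b (fun h hh => by
      refine (hb h hh).trans ((le_abs_self _).trans ?_)
      rw [abs_pow]
      calc |C| ^ k ≤ (max 1 |C|) ^ k := pow_le_pow_left₀ (abs_nonneg _) (le_max_right _ _) _
        _ ≤ (max 1 |C|) ^ (2 * D * N) := pow_le_pow_right₀ (le_max_left _ _) hkDN
        _ = _ := by rw [hC', ← pow_mul])
    rw [hsumW (fun z w => (z : ℝ) * mz (ar N w))] at hmain
    have e3 : ∑ n ∈ T'.image sh, (c n : ℝ) * mz n =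
        ∑ i ∈ T', (c (sh i) : ℝ) * mz (ar N (wd i)) := by
      rw [Finset.sum_image fun i _ i' _ h => hshinj h]
    have e4 : (a0 : ℝ) * mz (ar N []) = a0 := by
      have e5 : mz (ar N []) = 1 := by
        have e6 : ar N [] = [] := rfl
        rw [e6, mz]
      rw [e5, mul_one]
    rw [e4] at hmain
    rw [e3]
    refine lt_of_le_of_lt ?_ hmain
    refine inv_anti₀ (Real.rpow_pos_of_pos hNp _) ?_
    have hε0 : 0 < ε := hθ.trans hε
    calc (N : ℝ) ^ (D * ε * N) ≤ (k : ℝ) ^ (D * ε * N) :=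
          Real.rpow_le_rpow hNp.le hNk (by positivity)
      _ ≤ (k : ℝ) ^ (ε * k) := by
          refine Real.rpow_le_rpow_of_exponent_le hk1 ?_
          nlinarith

/-- a given depth -/
theorem asyMD (D : ℕ) (hD : 2 ≤ D) (γ ε κ C η : ℝ) (hη : 0 < η) (hη1 : η * (D + 1) < D - 1)
    (hγ : γ + D * η / (D - 1) < 1) (hε : η / (D - 1) < ε) :
    ∃ k0 : ℕ, ∀ k : ℕ, k0 ≤ k → ∃ T : Finset (List ℕ), (k : ℝ) ^ η ≤ T.card ∧
      (∀ w ∈ T, w.length = D ∧ w.sum = k ∧ ∀ x ∈ w, k ≤ 2 * D * x) ∧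
      ∀ (a0 : ℤ) (c : List ℕ → ℤ), (a0 ≠ 0 ∨ ∃ w ∈ T, c w ≠ 0) →
      |(a0 : ℝ)| + ∑ w ∈ T, |(c w : ℝ)| ≤ (2 : ℝ) ^ ((k : ℝ) ^ γ) →
      ∀ H : Finset (List ℕ), (∀ h ∈ H, (∀ m ∈ h, 1 ≤ m) ∧ (∀ x ∈ h.head?, 2 ≤ x) ∧
        (h.sum : ℝ) ≤ κ * k ∧ ε * k ≤ ht h) → ∀ b : List ℕ → ℝ, (∀ h ∈ H, |b h| ≤ C ^ k) →
      ((k : ℝ) ^ (ε * k))⁻¹ <
        |a0 + ∑ w ∈ T, (c w : ℝ) * mz w - ∑ h ∈ H, b h * mz h| := by
  have hDr : (2 : ℝ) ≤ D := by exact_mod_cast hD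
  have hD1 : (0 : ℝ) < D - 1 := by linarith
  have h1 : η / (D - 1) < 1 / (D + 1) := by
    rw [div_lt_div_iff₀ hD1 (by linarith)]
    linarith
  have h2 : η / (D - 1) < (1 - γ) / D := by
    rw [lt_div_iff₀ (by linarith)]
    have e1 : η / (D - 1) * D = D * η / (D - 1) := by ring
    rw [e1]
    linarith
  obtain ⟨θ, h3, h4⟩ := exists_between (lt_min (lt_min h1 h2) hε)
  rw [lt_min_iff, lt_min_iff] at h4
  have h5 : 0 < η / (D - 1) := div_pos hη hD1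
  refine asyM D hD θ γ ε κ C η (h5.trans h3) ?_ ?_ h4.2 hη ?_
  · have := (lt_div_iff₀ (by linarith : (0 : ℝ) < D + 1)).1 h4.1.1
    linarith
  · have := (lt_div_iff₀ (by linarith : (0 : ℝ) < D)).1 h4.1.2
    linarith
  · have := (div_lt_iff₀ hD1).1 h3
    linarith

/-- the choice of the depth -/
theorem asyME (γ ε κ C η : ℝ) (hη : 0 < η) (hη1 : η < 1) (hγ : γ + η < 1) (hε : 0 < ε) :
    ∃ D : ℕ, 2 ≤ D ∧
    ∃ k0 : ℕ, ∀ k : ℕ, k0 ≤ k → ∃ T : Finset (List ℕ), (k : ℝ) ^ η ≤ T.card ∧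
      (∀ w ∈ T, w.length = D ∧ w.sum = k ∧ ∀ x ∈ w, k ≤ 2 * D * x) ∧
      ∀ (a0 : ℤ) (c : List ℕ → ℤ), (a0 ≠ 0 ∨ ∃ w ∈ T, c w ≠ 0) →
      |(a0 : ℝ)| + ∑ w ∈ T, |(c w : ℝ)| ≤ (2 : ℝ) ^ ((k : ℝ) ^ γ) →
      ∀ H : Finset (List ℕ), (∀ h ∈ H, (∀ m ∈ h, 1 ≤ m) ∧ (∀ x ∈ h.head?, 2 ≤ x) ∧
        (h.sum : ℝ) ≤ κ * k ∧ ε * k ≤ ht h) → ∀ b : List ℕ → ℝ, (∀ h ∈ H, |b h| ≤ C ^ k) →
      ((k : ℝ) ^ (ε * k))⁻¹ <
        |a0 + ∑ w ∈ T, (c w : ℝ) * mz w - ∑ h ∈ H, b h * mz h| := by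
  set u : ℝ := min 1 (1 - γ) with hu
  have hu0 : η < u := lt_min hη1 (by linarith)
  set w : ℝ := min (u - η) ε with hw
  have hw0 : 0 < w := lt_min (by linarith) hε
  obtain ⟨D0, hD0⟩ := exists_nat_gt (4 / w)
  set D : ℕ := D0 + 2 with hD
  have hDr : (D : ℝ) = D0 + 2 := by rw [hD]; push_cast; rfl
  have hD0' : (0 : ℝ) ≤ D0 := Nat.cast_nonneg _
  have h1 : 4 < w * D0 := by
    rw [div_lt_iff₀ hw0] at hD0
    linarith
  have hu1 : u ≤ 1 := min_le_left _ _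
  have hu2 : u ≤ 1 - γ := min_le_right _ _
  have hwu : w ≤ u - η := min_le_left _ _
  have hwε : w ≤ ε := min_le_right _ _
  have hw1 : w * D0 ≤ (u - η) * D0 := mul_le_mul_of_nonneg_right hwu hD0'
  have hw2 : w * D0 ≤ ε * D0 := mul_le_mul_of_nonneg_right hwε hD0'
  have hD1 : (0 : ℝ) < (D : ℝ) - 1 := by rw [hDr]; linarith
  have key : D * η / (D - 1) < u := by
    rw [div_lt_iff₀ hD1, hDr]
    nlinarith
  obtain ⟨k0, h0⟩ := asyMD D (by omega) γ ε κ C η hη (by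
    rw [hDr]
    nlinarith) (by linarith) (by
    rw [div_lt_iff₀ hD1, hDr]
    nlinarith)
  exact ⟨D, by omega, k0, h0⟩

end Pool.Agent.R404.WZ
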