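import Pool.Agent.R404.WZ.M
import Pool.Agent.R404.MZ.Arith

/-!
# Many multiple zeta values of a given weight: single bounds for the coefficients
-/

set_option autoImplicit false

namespace Pool.Agent.R404.WZ

open Finset
open Pool.Agent.R404.MZ (rpow_large ze2_le asyH)
open Pool.Agent.Y760.ZG (mz hr hr_nonneg hr_le tail_sum tl tail_bd)
open Pool.Agent.Y777.AM (ht)

lemma log_large {e : ℝ} (he : 0 < e) (A B : ℝ) : ∃ N0 : ℕ, ∀ N : ℕ, N0 ≤ N →
    A + B * Real.log N ≤ (N : ℝ) ^ e := by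
  obtain ⟨N0, h0⟩ := rpow_large (e := e / 2) (by linarith) (|A| + |B| * (2 / e))
  refine ⟨max N0 1, fun N hN => ?_⟩
  have h1 := h0 N (by omega)
  have hN1 : (1 : ℝ) ≤ N := by
    have : 1 ≤ N := by omega
    exact_mod_cast this
  have hNp : (0 : ℝ) < N := by linarith
  have hl0 : 0 ≤ Real.log N := Real.log_nonneg hN1
  have h2 : Real.log N ≤ (N : ℝ) ^ (e / 2) / (e / 2) := Real.log_le_rpow_div hNp.le (by linarith)
  have h3 : (1 : ℝ) ≤ (N : ℝ) ^ (e / 2) := Real.one_le_rpow hN1 (by linarith)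
  have h4 : (N : ℝ) ^ e = (N : ℝ) ^ (e / 2) * (N : ℝ) ^ (e / 2) := by
    rw [← Real.rpow_add hNp]
    congr 1
    ring
  calc A + B * Real.log N ≤ |A| * (N : ℝ) ^ (e / 2) + |B| * ((N : ℝ) ^ (e / 2) / (e / 2)) := by
        refine add_le_add ?_ ?_
        · exact (le_abs_self A).trans (le_mul_of_one_le_right (abs_nonneg _) h3)
        · exact (mul_le_mul_of_nonneg_right (le_abs_self B) hl0).trans
            (mul_le_mul_of_nonneg_left h2 (abs_nonneg _))
    _ = (|A| + |B| * (2 / e)) * (N : ℝ) ^ (e / 2) := by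
        field_simp
    _ ≤ _ := by
        rw [h4]
        exact mul_le_mul_of_nonneg_right h1 (by positivity)

lemma mz_le_two (s : ℕ) (l : List ℕ) (hs : l.length + 2 ≤ s) :
    0 ≤ mz (s :: l) ∧ mz (s :: l) ≤ 2 := by
  have h1 := tail_bd (f := fun m : ℕ => hr l m / (m : ℝ) ^ s) (C := 1) (A := l.length) (σ := s)
    zero_le_one hs (fun m hm => by
      rw [abs_of_nonneg (div_nonneg (hr_nonneg _ _) (by positivity)), one_mul, div_eq_mul_inv]
      exact mul_le_mul_of_nonneg_right (hr_le l m hm) (by positivity)) (le_refl 1)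
  have h2 : tl (fun m : ℕ => hr l m / (m : ℝ) ^ s) 1 = mz (s :: l) := by
    rw [mz]
    rfl
  rw [h2] at h1
  have h3 : 0 ≤ mz (s :: l) := by
    rw [mz]
    exact tsum_nonneg fun m => div_nonneg (hr_nonneg _ _) (by positivity)
  refine ⟨h3, ?_⟩
  rw [abs_of_nonneg h3] at h1
  simp only [Nat.cast_one, one_pow, inv_one, mul_one, one_mul] at h1
  exact h1.trans ze2_le

/-- **single bounds, arbitrary constant term** -/
theorem asyMF (γ ε κ C η : ℝ) (hη : 0 < η) (hη1 : η < 1) (hγ : γ + η < 1) (hε : 0 < ε) :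
    ∃ D : ℕ, 2 ≤ D ∧
    ∃ k0 : ℕ, ∀ k : ℕ, k0 ≤ k → ∃ T : Finset (List ℕ), (k : ℝ) ^ η ≤ T.card ∧
      (∀ w ∈ T, w.length = D ∧ w.sum = k ∧ ∀ x ∈ w, k ≤ 2 * D * x) ∧
      ∀ (a0 : ℤ) (c : List ℕ → ℤ), (a0 ≠ 0 ∨ ∃ w ∈ T, c w ≠ 0) →
      (∀ w ∈ T, |(c w : ℝ)| ≤ (2 : ℝ) ^ ((k : ℝ) ^ γ)) →
      ∀ H : Finset (List ℕ), (∀ h ∈ H, (∀ m ∈ h, 1 ≤ m) ∧ (∀ x ∈ h.head?, 2 ≤ x) ∧
        (h.sum : ℝ) ≤ κ * k ∧ ε * k ≤ ht h) → ∀ b : List ℕ → ℝ, (∀ h ∈ H, |b h| ≤ C ^ k) →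
      ((k : ℝ) ^ (ε * k))⁻¹ <
        |a0 + ∑ w ∈ T, (c w : ℝ) * mz w - ∑ h ∈ H, b h * mz h| := by
  classical
  obtain ⟨γ', hg1, hg2⟩ := exists_between (max_lt (by linarith : γ < 1 - η)
    (by linarith : (0 : ℝ) < 1 - η))
  rw [max_lt_iff] at hg1
  obtain ⟨D, hD, k0, h0⟩ := asyME γ' ε κ C η hη hη1 (by linarith) hε
  obtain ⟨k1, h1⟩ := rpow_large (e := γ' - γ) (by linarith [hg1.1]) (2 : ℝ)
  obtain ⟨k2, h2⟩ := log_large hg1.2 (2 * (5 * 1)) (2 * (1 / Real.log 2))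
  obtain ⟨k3, h3⟩ := asyH κ C (ε / 2) ε (by linarith) (by linarith)
  refine ⟨D, hD, max (max (max k0 k1) (max k2 k3)) (2 * D * (D + 2) + 2), fun k hk => ?_⟩
  obtain ⟨T, hT1, hT2, hT3⟩ := h0 k (by omega)
  have g1 := h1 k (by omega)
  have g2 := h2 k (by omega)
  have g3 := h3 k (by omega)
  have hk2 : 2 ≤ k := by omega
  have hk1r : (2 : ℝ) ≤ k := by exact_mod_cast hk2
  have hkp : (0 : ℝ) < k := by linarith
  have hkη : (k : ℝ) ^ η ≤ k := by
    calc (k : ℝ) ^ η ≤ (k : ℝ) ^ (1 : ℝ) :=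
          Real.rpow_le_rpow_of_exponent_le (by linarith) hη1.le
      _ = k := Real.rpow_one _
  obtain ⟨T', hT's, hT'c⟩ := Finset.exists_subset_card_eq (s := T) (n := ⌈(k : ℝ) ^ η⌉₊)
    (Nat.ceil_le.2 hT1)
  have hT'k : (T'.card : ℝ) ≤ k := by
    rw [hT'c]
    have e1 : ⌈(k : ℝ) ^ η⌉₊ ≤ k := Nat.ceil_le.2 hkη
    exact_mod_cast e1
  refine ⟨T', by rw [hT'c]; exact Nat.le_ceil _, fun w hw => hT2 w (hT's hw), ?_⟩
  intro a0 c hc hcb H hH b hb
  have hmz : ∀ w ∈ T', |mz w| ≤ 2 := by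
    intro w hw
    obtain ⟨e1, e2, e3⟩ := hT2 w (hT's hw)
    cases w with
    | nil =>
      rw [List.length_nil] at e1
      omega
    | cons s l =>
      have e4 := e3 s List.mem_cons_self
      rw [List.length_cons] at e1
      obtain ⟨f1, f2⟩ := mz_le_two s l (by
        by_contra hcon
        push Not at hcon
        have e5 : s ≤ D + 1 := by omega
        have e6 : 2 * D * s ≤ 2 * D * (D + 1) := Nat.mul_le_mul_left _ e5
        have e7 : 2 * D * (D + 2) = 2 * D * (D + 1) + 2 * D := by ring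
        omega)
      rw [abs_of_nonneg f1]
      exact f2
  set S : ℝ := ∑ w ∈ T', |(c w : ℝ)| with hS
  have hS0 : 0 ≤ S := Finset.sum_nonneg fun _ _ => abs_nonneg _
  have hP1 : (1 : ℝ) ≤ (2 : ℝ) ^ ((k : ℝ) ^ γ) :=
    Real.one_le_rpow one_le_two (Real.rpow_nonneg hkp.le _)
  have hSb : S ≤ k * (2 : ℝ) ^ ((k : ℝ) ^ γ) := by
    calc S ≤ ∑ _w ∈ T', (2 : ℝ) ^ ((k : ℝ) ^ γ) := Finset.sum_le_sum hcb
      _ = T'.card * (2 : ℝ) ^ ((k : ℝ) ^ γ) := by rw [Finset.sum_const, nsmul_eq_mul]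
      _ ≤ _ := mul_le_mul_of_nonneg_right hT'k (by linarith)
  by_cases ha : |(a0 : ℝ)| ≤ 4 * S + 4
  · set c' : List ℕ → ℤ := fun w => if w ∈ T' then c w else 0 with hc'
    have hsum : ∀ g : List ℕ → ℝ, ∑ w ∈ T, (c' w : ℝ) * g w = ∑ w ∈ T', (c w : ℝ) * g w := by
      intro g
      rw [← Finset.sum_subset hT's]
      · exact Finset.sum_congr rfl fun w hw => by rw [hc']; simp only; rw [if_pos hw]
      · intro w _ hw
        rw [hc']
        simp only
        rw [if_neg hw, Int.cast_zero, zero_mul]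
    have habs : ∑ w ∈ T, |(c' w : ℝ)| = S := by
      rw [hS, ← Finset.sum_subset hT's]
      · exact Finset.sum_congr rfl fun w hw => by rw [hc']; simp only; rw [if_pos hw]
      · intro w _ hw
        rw [hc']
        simp only
        rw [if_neg hw, Int.cast_zero, abs_zero]
    have h4 := hT3 a0 c' (by
      rcases hc with hc | ⟨w, hw, hcw⟩
      · exact Or.inl hc
      · refine Or.inr ⟨w, hT's hw, ?_⟩
        rw [hc']
        simp only
        rwa [if_pos hw]) (by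
      rw [habs]
      have e1 : |(a0 : ℝ)| + S ≤ 9 * (k * (2 : ℝ) ^ ((k : ℝ) ^ γ)) := by
        have e2 : (1 : ℝ) ≤ k * (2 : ℝ) ^ ((k : ℝ) ^ γ) := by nlinarith
        linarith
      refine e1.trans ?_
      have hl2 : 0 < Real.log 2 := Real.log_pos (by norm_num)
      have e3 : 9 * (k : ℝ) ≤ (2 : ℝ) ^ ((k : ℝ) ^ γ' / 2) := by
        have e4 : (k : ℝ) = (2 : ℝ) ^ (Real.log k / Real.log 2) := by
          rw [Real.rpow_def_of_pos two_pos, mul_div_cancel₀ _ hl2.ne', Real.exp_log hkp]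
        calc 9 * (k : ℝ) ≤ (2 : ℝ) ^ (5 : ℝ) * (2 : ℝ) ^ (Real.log k / Real.log 2) := by
              rw [← e4]
              refine mul_le_mul_of_nonneg_right ?_ hkp.le
              norm_num
          _ = (2 : ℝ) ^ (5 + Real.log k / Real.log 2) := by rw [← Real.rpow_add two_pos]
          _ ≤ _ := by
              refine Real.rpow_le_rpow_of_exponent_le one_le_two ?_
              have e5 : 2 * (1 / Real.log 2) * Real.log k = 2 * (Real.log k / Real.log 2) := by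
                ring
              rw [e5] at g2
              linarith
      have e6 : (k : ℝ) ^ γ ≤ (k : ℝ) ^ γ' / 2 := by
        have e4 : (k : ℝ) ^ γ' = (k : ℝ) ^ (γ' - γ) * (k : ℝ) ^ γ := by
          rw [← Real.rpow_add hkp]
          congr 1
          ring
        have e5 : 0 ≤ (k : ℝ) ^ γ := Real.rpow_nonneg hkp.le _
        have e6 := mul_le_mul_of_nonneg_right g1 e5
        rw [← e4] at e6
        linarith
      calc 9 * (k * (2 : ℝ) ^ ((k : ℝ) ^ γ)) = 9 * k * (2 : ℝ) ^ ((k : ℝ) ^ γ) := by ring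
        _ ≤ (2 : ℝ) ^ ((k : ℝ) ^ γ' / 2) * (2 : ℝ) ^ ((k : ℝ) ^ γ' / 2) :=
            mul_le_mul e3 (Real.rpow_le_rpow_of_exponent_le one_le_two e6) (by positivity)
              (by positivity)
        _ = _ := by
            rw [← Real.rpow_add two_pos]
            congr 1
            ring) H hH b hb
    rwa [hsum] at h4
  · push Not at ha
    have h5 := g3 H hH b hb
    have h6 : |∑ w ∈ T', (c w : ℝ) * mz w| ≤ 2 * S := by
      refine (Finset.abs_sum_le_sum_abs _ _).trans ?_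
      rw [hS, Finset.mul_sum]
      refine Finset.sum_le_sum fun w hw => ?_
      rw [abs_mul]
      have := mul_le_mul_of_nonneg_left (hmz w hw) (abs_nonneg (c w : ℝ))
      linarith
    have h7 : ((k : ℝ) ^ (ε / 2 * k))⁻¹ ≤ 1 :=
      inv_le_one_of_one_le₀ (Real.one_le_rpow (by linarith) (by positivity))
    have h8 : ((k : ℝ) ^ (ε * k))⁻¹ ≤ 1 :=
      inv_le_one_of_one_le₀ (Real.one_le_rpow (by linarith) (by positivity))
    have h9 : |(a0 : ℝ)| ≤ |a0 + ∑ w ∈ T', (c w : ℝ) * mz w - ∑ h ∈ H, b h * mz h| +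
        |∑ w ∈ T', (c w : ℝ) * mz w| + |∑ h ∈ H, b h * mz h| := by
      have e1 : (a0 : ℝ) = (a0 + ∑ w ∈ T', (c w : ℝ) * mz w - ∑ h ∈ H, b h * mz h) +
          (-∑ w ∈ T', (c w : ℝ) * mz w) + ∑ h ∈ H, b h * mz h := by ring
      calc |(a0 : ℝ)| = |(a0 + ∑ w ∈ T', (c w : ℝ) * mz w - ∑ h ∈ H, b h * mz h) +
          (-∑ w ∈ T', (c w : ℝ) * mz w) + ∑ h ∈ H, b h * mz h| := by rw [← e1]
        _ ≤ _ := by
          refine (abs_add_three _ _ _).trans ?_
          rw [abs_neg]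
    linarith

end Pool.Agent.R404.WZ
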