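import Pool.Agent.R404.WZ.T

/-!
# Small relations are consequences of the stuffle product: polynomials
-/

set_option autoImplicit false

namespace Pool.Agent.R404.WZ

open Finset
open Pool.Agent.Y760.ZG (mz)
open Pool.Agent.Y777.AM (ht)
open Pool.Agent.Y760.ZF (sti)
open Pool.Agent.Y777.AM.St (Ad)

/-- the list of the words of a monomial -/
noncomputable def ml (m : Wd →₀ ℕ) : List Wd :=
  m.support.toList.flatMap fun w => List.replicate (m w) w

lemma mem_ml {m : Wd →₀ ℕ} {u : Wd} (h : u ∈ ml m) : u ∈ m.support := by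
  unfold ml at h
  rw [List.mem_flatMap] at h
  obtain ⟨w, hw, h⟩ := h
  rw [List.eq_of_mem_replicate h]
  exact Finset.mem_toList.1 hw

lemma ml_prod {A : Type} [CommRing A] (m : Wd →₀ ℕ) (F : Wd → A) :
    ((ml m).map F).prod = ∏ w ∈ m.support, F w ^ m w := by
  unfold ml
  rw [← Finset.prod_map_toList, List.map_flatMap]
  have h1 : ∀ L : List Wd, (L.flatMap fun i => (List.replicate (m i) i).map F).prod =
      (L.map fun i => F i ^ m i).prod := by
    intro L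
    induction L with
    | nil => simp
    | cons a L ih =>
      rw [List.flatMap_cons, List.prod_append, ih, List.map_cons, List.prod_cons,
        List.map_replicate, List.prod_replicate]
  exact h1 _

lemma ml_wt (m : Wd →₀ ℕ) : ((ml m).map wt).sum = ∑ w ∈ m.support, m w * wt w := by
  unfold ml
  rw [← Finset.sum_map_toList, List.map_flatMap]
  have h1 : ∀ L : List Wd, (L.flatMap fun i => (List.replicate (m i) i).map wt).sum =
      (L.map fun i => m i * wt i).sum := by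
    intro L
    induction L with
    | nil => simp
    | cons a L ih =>
      rw [List.flatMap_cons, List.sum_append, ih, List.map_cons, List.sum_cons,
        List.map_replicate, List.sum_replicate, smul_eq_mul]
  exact h1 _

lemma ml_aeval {A : Type} [CommRing A] (f : MvPolynomial Wd ℤ) (F : Wd → A) :
    MvPolynomial.aeval F f = ∑ m ∈ f.support, ((f.coeff m : ℤ) : A) * ((ml m).map F).prod := by
  rw [MvPolynomial.aeval_def, MvPolynomial.eval₂_eq]
  exact Finset.sum_congr rfl fun m _ => by rw [ml_prod]; simp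

/-- **polynomials** -/
theorem poly (D : ℕ) (θ γ ε κ C : ℝ) (hθ : 0 < θ) (hθD : (D + 1) * θ < 1)
    (hγ : γ + D * θ < 1) (hε : D * θ < ε) :
    ∃ N0 : ℕ, ∀ N : ℕ, N0 ≤ N → ∀ J : ℕ, (J : ℝ) ≤ (N : ℝ) ^ θ →
      ∀ f : MvPolynomial Wd ℤ, (∀ m ∈ f.support,
        (∀ w ∈ m.support, w ≠ [] ∧ ∀ y ∈ w, 1 ≤ y.1 ∧ y.2 ≤ J) ∧
        ∑ w ∈ m.support, m w * wt w ≤ D) →
      ∑ m ∈ f.support, |((f.coeff m : ℤ) : ℝ)| ≤ (2 : ℝ) ^ ((N : ℝ) ^ γ) →
      ∀ H : Finset (List ℕ), (∀ h ∈ H, (∀ m ∈ h, 1 ≤ m) ∧ (∀ x ∈ h.head?, 2 ≤ x) ∧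
        (h.sum : ℝ) ≤ κ * N ∧ ε * N ≤ ht h) → ∀ b : List ℕ → ℝ, (∀ h ∈ H, |b h| ≤ C ^ N) →
      |MvPolynomial.aeval (fun w => mz (ar N w)) f - ∑ h ∈ H, b h * mz h| ≤
        ((N : ℝ) ^ (ε * N))⁻¹ →
      MvPolynomial.aeval (fun w => mz (ar N w)) f = 0 ∧
      ∀ (A : Type) [CommRing A] (Z : List ℕ → A),
        (∀ u v, Ad u → Ad v → Z u * Z v = ((sti u v).map Z).sum) →
        MvPolynomial.aeval (fun w => Z (ar N w)) f = 0 := by
  obtain ⟨N0, h0⟩ := transfer D θ γ ε κ C hθ hθD hγ hε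
  refine ⟨N0, fun N hN J hJ f hf hfC H hH b hb hsmall => ?_⟩
  rw [ml_aeval] at hsmall
  obtain ⟨-, h2, h3⟩ := h0 N hN J hJ (Wd →₀ ℕ) f.support ml (fun m hm =>
    ⟨fun u hu => (hf m hm).1 u (mem_ml hu), by rw [ml_wt]; exact (hf m hm).2⟩) (fun m => f.coeff m)
    hfC H hH b hb hsmall
  refine ⟨by rw [ml_aeval]; exact h2, fun A _ Z hZ => ?_⟩
  rw [ml_aeval]
  exact h3 A Z hZ

end Pool.Agent.R404.WZ
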