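import Pool.Agent.R404.WZ.D
import Pool.Agent.Y777.AM.St

/-!
# Small relations are consequences of the stuffle product
-/

set_option autoImplicit false

namespace Pool.Agent.R404.WZ

open Finset
open Pool.Agent.R404.MZ (rpow_large)
open Pool.Agent.Y760.ZG (mz)
open Pool.Agent.Y777.AM (ht)
open Pool.Agent.Y760.ZF (sti stil Cl mz_prod stil_count)
open Pool.Agent.Y777.AM.St (Ad ex ex_ne ex_nil prod_ex)

/-- the stuffle product of words -/
def sw : Wd → Wd → List Wd
  | [], l => [l]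
  | i :: k, [] => [i :: k]
  | i :: k, j :: l => (sw k (j :: l)).map (i :: ·) ++ (sw (i :: k) l).map (j :: ·) ++
      (sw k l).map ((i + j) :: ·)
termination_by k l => k.length + l.length

/-- the stuffle product of several words -/
def swl : List Wd → List Wd
  | [] => [[]]
  | u :: M => (swl M).flatMap (sw u)

lemma ar_cons (N : ℕ) (y : ℕ × ℕ) (w : Wd) : ar N (y :: w) = (y.1 * N + y.2) :: ar N w := rfl
lemma ar_nil (N : ℕ) : ar N [] = [] := rfl

lemma sw_ar (N : ℕ) (u v : Wd) : (sw u v).map (ar N) = sti (ar N u) (ar N v) := by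
  induction u, v using sw.induct with
  | case1 v => rw [sw, ar_nil, sti]; simp
  | case2 i k => rw [sw, ar_nil, ar_cons, sti]; simp [ar_cons]
  | case3 i k j l ih1 ih2 ih3 =>
    rw [sw, ar_cons, ar_cons, sti]
    rw [ar_cons] at ih1 ih2
    rw [← ih1, ← ih2, ← ih3, List.map_append, List.map_append, List.map_map, List.map_map,
      List.map_map, List.map_map, List.map_map, List.map_map]
    have e3 : (i + j).1 * N + (i + j).2 = i.1 * N + i.2 + (j.1 * N + j.2) := by
      rw [Prod.fst_add, Prod.snd_add]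
      ring
    refine congrArg₂ (· ++ ·) (congrArg₂ (· ++ ·) ?_ ?_) ?_
    · exact List.map_congr_left fun w _ => rfl
    · exact List.map_congr_left fun w _ => rfl
    · refine List.map_congr_left fun w _ => ?_
      simp only [Function.comp_apply]
      rw [ar_cons, e3]

lemma swl_ar (N : ℕ) (M : List Wd) : (swl M).map (ar N) = stil (M.map (ar N)) := by
  induction M with
  | nil => rw [swl, List.map_nil, stil]; simp [ar_nil]
  | cons u M ih =>
    rw [swl, List.map_cons, stil, ← ih, List.map_flatMap, List.flatMap_map]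
    exact congrArg (fun f => (swl M).flatMap f) (funext fun v => sw_ar N u v)

lemma sw_prop (B B' : ℕ) (u v : Wd) : (∀ y ∈ u, 1 ≤ y.1 ∧ y.2 ≤ B) → (∀ y ∈ v, 1 ≤ y.1 ∧ y.2 ≤ B') →
    ∀ w ∈ sw u v, (∀ y ∈ w, 1 ≤ y.1 ∧ y.2 ≤ B + B') ∧ wt w = wt u + wt v := by
  induction u, v using sw.induct with
  | case1 v =>
    intro _ hv w hw
    rw [sw, List.mem_singleton] at hw
    subst hw
    refine ⟨fun y hy => ⟨(hv y hy).1, (hv y hy).2.trans (by omega)⟩, ?_⟩
    have h0 : wt [] = 0 := by simp [wt]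
    rw [h0, zero_add]
  | case2 i k =>
    intro hu _ w hw
    rw [sw, List.mem_singleton] at hw
    subst hw
    refine ⟨fun y hy => ⟨(hu y hy).1, (hu y hy).2.trans (by omega)⟩, ?_⟩
    have h0 : wt [] = 0 := by simp [wt]
    rw [h0, add_zero]
  | case3 i k j l ih1 ih2 ih3 =>
    intro hu hv w hw
    have hi := hu i List.mem_cons_self
    have hj := hv j List.mem_cons_self
    have hu' : ∀ y ∈ k, 1 ≤ y.1 ∧ y.2 ≤ B := fun m hm => hu m (List.mem_cons_of_mem _ hm)
    have hv' : ∀ y ∈ l, 1 ≤ y.1 ∧ y.2 ≤ B' := fun m hm => hv m (List.mem_cons_of_mem _ hm)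
    rw [sw, List.mem_append, List.mem_append, List.mem_map, List.mem_map, List.mem_map] at hw
    rcases hw with (⟨w', hw', rfl⟩ | ⟨w', hw', rfl⟩) | ⟨w', hw', rfl⟩
    · obtain ⟨h1, h2⟩ := ih1 hu' hv w' hw'
      refine ⟨fun y hy => ?_, ?_⟩
      · rcases List.mem_cons.1 hy with rfl | hy
        · exact ⟨hi.1, by omega⟩
        · exact h1 y hy
      · rw [wt_cons i w', h2, wt_cons i k]
        omega
    · obtain ⟨h1, h2⟩ := ih2 hu hv' w' hw'
      refine ⟨fun y hy => ?_, ?_⟩
      · rcases List.mem_cons.1 hy with rfl | hy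
        · exact ⟨hj.1, by omega⟩
        · exact h1 y hy
      · rw [wt_cons j w', h2, wt_cons j l]
        omega
    · obtain ⟨h1, h2⟩ := ih3 hu' hv' w' hw'
      refine ⟨fun y hy => ?_, ?_⟩
      · rcases List.mem_cons.1 hy with rfl | hy
        · rw [Prod.fst_add, Prod.snd_add]
          exact ⟨by omega, by omega⟩
        · exact h1 y hy
      · rw [wt_cons (i + j) w', h2, wt_cons i k, wt_cons j l, Prod.fst_add]
        omega

lemma swl_prop (J : ℕ) (M : List Wd) (hM : ∀ u ∈ M, ∀ y ∈ u, 1 ≤ y.1 ∧ y.2 ≤ J) :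
    ∀ w ∈ swl M, (∀ y ∈ w, 1 ≤ y.1 ∧ y.2 ≤ M.length * J) ∧ wt w = (M.map wt).sum := by
  induction M with
  | nil =>
    intro w hw
    rw [swl, List.mem_singleton] at hw
    subst hw
    exact ⟨fun y hy => absurd hy List.not_mem_nil, by simp [wt]⟩
  | cons u M ih =>
    intro w hw
    rw [swl, List.mem_flatMap] at hw
    obtain ⟨v, hv, hw⟩ := hw
    obtain ⟨h1, h2⟩ := ih (fun u hu => hM u (List.mem_cons_of_mem _ hu)) v hv
    obtain ⟨h3, h4⟩ := sw_prop J (M.length * J) u v (hM u List.mem_cons_self) h1 w hw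
    refine ⟨fun y hy => ⟨(h3 y hy).1, (h3 y hy).2.trans (le_of_eq ?_)⟩, ?_⟩
    · rw [List.length_cons]
      ring
    · rw [h4, h2, List.map_cons, List.sum_cons]

lemma length_le_sum {M : List Wd} (hM : ∀ u ∈ M, u ≠ [] ∧ ∀ y ∈ u, 1 ≤ y.1) :
    M.length ≤ (M.map wt).sum := by
  induction M with
  | nil => simp
  | cons u M ih =>
    have h1 := ih fun u hu => hM u (List.mem_cons_of_mem _ hu)
    have h2 := length_le_wt (hM u List.mem_cons_self).2
    have h3 : 0 < u.length := List.length_pos_of_ne_nil (hM u List.mem_cons_self).1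
    rw [List.length_cons, List.map_cons, List.sum_cons]
    omega

section

variable {A : Type} [CommRing A]

lemma list_countW (L : List Wd) (F : Wd → A) (s : Finset Wd)
    (hs : ∀ w ∈ L, w ∈ s) :
    (L.map F).sum = ∑ w ∈ s, ((L.countP (· = w) : ℕ) : A) * F w := by
  induction L with
  | nil => simp
  | cons a L ih =>
    have hs' : ∀ w ∈ L, w ∈ s := fun w hw => hs w (List.mem_cons_of_mem _ hw)
    rw [List.map_cons, List.sum_cons, ih hs']
    have h1 : ∀ w ∈ s, (((a :: L).countP (· = w) : ℕ) : A) * F w =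
        ((L.countP (· = w) : ℕ) : A) * F w + (if a = w then F w else 0) := by
      intro w _
      rw [List.countP_cons]
      by_cases h : a = w
      · simp only [h, decide_true, if_true]
        push_cast
        ring
      · simp only [h, decide_false, if_false, Bool.false_eq_true]
        push_cast
        ring
    rw [sum_congr rfl h1, sum_add_distrib, sum_ite_eq, if_pos (hs a List.mem_cons_self), add_comm]

end

section

variable {ι : Type} (s : Finset ι) (M : ι → List Wd) (c : ι → ℤ)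

/-- the words of the expansion -/
def Wo : Finset Wd := s.biUnion fun i => (swl (M i)).toFinset

/-- the coefficients of the expansion -/
def Co (v : Wd) : ℤ := ∑ i ∈ s, c i * ((swl (M i)).countP (· = v) : ℤ)

lemma expand {A : Type} [CommRing A] (F : Wd → A)
    (hF : ∀ i ∈ s, ((M i).map F).prod = ((swl (M i)).map F).sum) :
    ∑ i ∈ s, (c i : A) * ((M i).map F).prod = ∑ v ∈ Wo s M, (Co s M c v : A) * F v := by
  have h1 : ∀ i ∈ s, (c i : A) * ((M i).map F).prod =
      ∑ v ∈ Wo s M, (c i : A) * ((swl (M i)).countP (· = v) : A) * F v := by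
    intro i hi
    rw [hF i hi, list_countW (swl (M i)) F (Wo s M)
      (fun v hv => mem_biUnion.2 ⟨i, hi, List.mem_toFinset.2 hv⟩), mul_sum]
    exact sum_congr rfl fun v _ => by rw [mul_assoc]
  rw [sum_congr rfl h1, sum_comm]
  refine sum_congr rfl fun v _ => ?_
  rw [← sum_mul, Co]
  push_cast
  rfl

lemma Co_length {R : ℕ} (hR : ∀ i ∈ s, (swl (M i)).length ≤ R) :
    ∑ v ∈ Wo s M, |(Co s M c v : ℝ)| ≤ R * ∑ i ∈ s, |(c i : ℝ)| := by
  calc ∑ v ∈ Wo s M, |(Co s M c v : ℝ)|
      ≤ ∑ v ∈ Wo s M, ∑ i ∈ s, |(c i : ℝ)| * ((swl (M i)).countP (· = v) : ℝ) := by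
        refine sum_le_sum fun v _ => ?_
        rw [Co]
        push_cast
        refine (abs_sum_le_sum_abs _ _).trans (sum_le_sum fun i _ => ?_)
        rw [abs_mul, Nat.abs_cast]
    _ = ∑ i ∈ s, |(c i : ℝ)| * ∑ v ∈ Wo s M, ((swl (M i)).countP (· = v) : ℝ) := by
        rw [sum_comm]
        exact sum_congr rfl fun i _ => by rw [mul_sum]
    _ ≤ ∑ i ∈ s, |(c i : ℝ)| * R := by
        refine sum_le_sum fun i hi => mul_le_mul_of_nonneg_left ?_ (abs_nonneg _)
        have h1 := list_countW (A := ℝ) (swl (M i)) (fun _ => 1) (Wo s M)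
          (fun v hv => mem_biUnion.2 ⟨i, hi, List.mem_toFinset.2 hv⟩)
        simp only [mul_one, List.map_const', List.sum_replicate, nsmul_eq_mul] at h1
        rw [← h1]
        exact_mod_cast hR i hi
    _ = _ := by rw [← sum_mul, mul_comm]

end

/-- **small relations are consequences of the stuffle product** -/
theorem transfer (D : ℕ) (θ γ ε κ C : ℝ) (hθ : 0 < θ) (hθD : (D + 1) * θ < 1)
    (hγ : γ + D * θ < 1) (hε : D * θ < ε) :
    ∃ N0 : ℕ, ∀ N : ℕ, N0 ≤ N → ∀ J : ℕ, (J : ℝ) ≤ (N : ℝ) ^ θ →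
      ∀ (ι : Type) (s : Finset ι) (M : ι → List Wd),
      (∀ i ∈ s, (∀ u ∈ M i, u ≠ [] ∧ ∀ y ∈ u, 1 ≤ y.1 ∧ y.2 ≤ J) ∧ ((M i).map wt).sum ≤ D) →
      ∀ c : ι → ℤ, ∑ i ∈ s, |(c i : ℝ)| ≤ (2 : ℝ) ^ ((N : ℝ) ^ γ) →
      ∀ H : Finset (List ℕ), (∀ h ∈ H, (∀ m ∈ h, 1 ≤ m) ∧ (∀ x ∈ h.head?, 2 ≤ x) ∧
        (h.sum : ℝ) ≤ κ * N ∧ ε * N ≤ ht h) → ∀ b : List ℕ → ℝ, (∀ h ∈ H, |b h| ≤ C ^ N) →
      |∑ i ∈ s, (c i : ℝ) * ((M i).map fun u => mz (ar N u)).prod - ∑ h ∈ H, b h * mz h| ≤
        ((N : ℝ) ^ (ε * N))⁻¹ →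
      (∀ v ∈ Wo s M, Co s M c v = 0) ∧
      ∑ i ∈ s, (c i : ℝ) * ((M i).map fun u => mz (ar N u)).prod = 0 ∧
      ∀ (A : Type) [CommRing A] (Z : List ℕ → A),
        (∀ u v, Ad u → Ad v → Z u * Z v = ((sti u v).map Z).sum) →
        ∑ i ∈ s, (c i : A) * ((M i).map fun u => Z (ar N u)).prod = 0 := by
  classical
  have hD0 : (0 : ℝ) ≤ D := Nat.cast_nonneg D
  have hb1 : D * θ < min (min (1 - γ) ε) (1 - θ) := by
    rw [lt_min_iff, lt_min_iff]
    refine ⟨⟨by linarith, hε⟩, by linarith⟩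
  -- larger parameters
  obtain ⟨θ', hθ1, hθ2⟩ : ∃ θ' : ℝ, θ < θ' ∧ (D + 1) * θ' < 1 ∧ γ + D * θ' < 1 ∧ D * θ' < ε := by
    have e1 : 0 < (1 - (D + 1) * θ) / (D + 2) := div_pos (by linarith) (by linarith)
    have e2 : 0 < (1 - γ - D * θ) / (D + 2) := div_pos (by linarith) (by linarith)
    have e3 : 0 < (ε - D * θ) / (D + 2) := div_pos (by linarith) (by linarith)
    set ρ := min (min ((1 - (D + 1) * θ) / (D + 2)) ((1 - γ - D * θ) / (D + 2)))
      ((ε - D * θ) / (D + 2)) with hρ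
    have hρ0 : 0 < ρ := lt_min (lt_min e1 e2) e3
    have f1 : ρ * (D + 2) ≤ 1 - (D + 1) * θ :=
      (le_div_iff₀ (by linarith)).1 ((min_le_left _ _).trans (min_le_left _ _))
    have f2 : ρ * (D + 2) ≤ 1 - γ - D * θ :=
      (le_div_iff₀ (by linarith)).1 ((min_le_left _ _).trans (min_le_right _ _))
    have f3 : ρ * (D + 2) ≤ ε - D * θ :=
      (le_div_iff₀ (by linarith)).1 (min_le_right _ _)
    refine ⟨θ + ρ, by linarith, by nlinarith, by nlinarith, by nlinarith⟩
  obtain ⟨hθ3, hθ4, hθ5⟩ := hθ2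
  obtain ⟨γ', hγ1, hγ2⟩ := exists_between (max_lt (by linarith : γ < 1 - D * θ')
    (by nlinarith : (0 : ℝ) < 1 - D * θ'))
  rw [max_lt_iff] at hγ1
  obtain ⟨N1, h1⟩ := asyW D θ' γ' ε κ C (by linarith) hθ3 (by linarith) hθ5
  obtain ⟨N2, h2⟩ := rpow_large (e := θ' - θ) (by linarith) (D : ℝ)
  set R : ℕ := 3 ^ (D * D * D) with hR
  obtain ⟨N3, h3⟩ := rpow_large (e := γ' - γ) (by linarith [hγ1.1]) (2 : ℝ)
  obtain ⟨N4, h4⟩ := rpow_large (e := γ') hγ1.2 (2 * (D * D * D * 2 : ℝ))
  refine ⟨max (max N1 N2) (max (max N3 N4) (D * D + 2)), fun N hN J hJ ι s M hM c hc H hH b hb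
    hsmall => ?_⟩
  have g1 := h1 N (by omega) (D * J) (by
    have e1 := h2 N (by omega)
    have hNp : (0 : ℝ) < N := by
      have : 0 < N := by omega
      exact_mod_cast this
    have e2 : (N : ℝ) ^ θ' = (N : ℝ) ^ (θ' - θ) * (N : ℝ) ^ θ := by
      rw [← Real.rpow_add hNp]
      congr 1
      ring
    rw [e2]
    push_cast
    exact mul_le_mul e1 hJ (Nat.cast_nonneg _) (Real.rpow_nonneg hNp.le _)) (Wo s M)
  have hN2 : D * D + 2 ≤ N := by omega
  have hNp : (0 : ℝ) < N := by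
    have : 0 < N := by omega
    exact_mod_cast this
  have hNone : (1 : ℝ) ≤ N := by
    have : 1 ≤ N := by omega
    exact_mod_cast this
  have hlenM : ∀ i ∈ s, (M i).length ≤ D := fun i hi =>
    (length_le_sum fun u hu => ⟨((hM i hi).1 u hu).1, fun y hy =>
      (((hM i hi).1 u hu).2 y hy).1⟩).trans (hM i hi).2
  have hlenu : ∀ i ∈ s, ∀ u ∈ M i, u.length ≤ D := by
    intro i hi u hu
    have e1 := length_le_wt fun y hy => (((hM i hi).1 u hu).2 y hy).1
    have e2 : wt u ≤ ((M i).map wt).sum := List.single_le_sum (by simp) _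
      (List.mem_map_of_mem hu)
    exact e1.trans (e2.trans (hM i hi).2)
  have hwo : ∀ w ∈ Wo s M, (∀ y ∈ w, 1 ≤ y.1 ∧ y.2 ≤ D * J) ∧ wt w ≤ D := by
    intro w hw
    rw [Wo, mem_biUnion] at hw
    obtain ⟨i, hi, hw⟩ := hw
    rw [List.mem_toFinset] at hw
    obtain ⟨e1, e2⟩ := swl_prop J (M i) (fun u hu => ((hM i hi).1 u hu).2) w hw
    refine ⟨fun y hy => ⟨(e1 y hy).1, (e1 y hy).2.trans (Nat.mul_le_mul_right _ (hlenM i hi))⟩, ?_⟩
    rw [e2]
    exact (hM i hi).2
  have g2 := g1 hwo (Co s M c)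
  -- the number of words
  have hswl : ∀ i ∈ s, (swl (M i)).length ≤ R := by
    intro i hi
    have e1 : (swl (M i)).length = (stil ((M i).map (ar N))).length := by
      rw [← swl_ar, List.length_map]
    rw [e1]
    refine (stil_count D ((M i).map (ar N)) (fun u hu => ?_)).2.trans ?_
    · obtain ⟨v, hv, rfl⟩ := List.mem_map.1 hu
      have : (ar N v).length = v.length := by unfold ar; rw [List.length_map]
      rw [this]
      exact hlenu i hi v hv
    · rw [List.length_map, hR, ← pow_mul]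
      refine Nat.pow_le_pow_right (by norm_num) ?_
      have := hlenM i hi
      exact Nat.mul_le_mul (Nat.mul_le_mul_right _ this) this
  have hsize : ∑ w ∈ Wo s M, |(Co s M c w : ℝ)| ≤ (2 : ℝ) ^ ((N : ℝ) ^ γ') := by
    refine (Co_length s M c hswl).trans ?_
    have e1 : ((R : ℕ) : ℝ) ≤ (2 : ℝ) ^ ((N : ℝ) ^ γ' / 2) := by
      have e2 : ((R : ℕ) : ℝ) ≤ (2 : ℝ) ^ (D * D * D * 2 : ℝ) := by
        rw [hR]
        push_cast
        have e3 : (2 : ℝ) ^ (D * D * D * 2 : ℝ) = (4 : ℝ) ^ (D * D * D) := by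
          rw [show (4 : ℝ) = 2 ^ 2 by norm_num, ← pow_mul, ← Real.rpow_natCast]
          congr 1
          push_cast
          ring
        rw [e3]
        exact pow_le_pow_left₀ (by norm_num) (by norm_num) _
      refine e2.trans (Real.rpow_le_rpow_of_exponent_le one_le_two ?_)
      have := h4 N (by omega)
      linarith
    have e2 : (N : ℝ) ^ γ ≤ (N : ℝ) ^ γ' / 2 := by
      have e3 := h3 N (by omega)
      have e4 : (N : ℝ) ^ γ' = (N : ℝ) ^ (γ' - γ) * (N : ℝ) ^ γ := by
        rw [← Real.rpow_add hNp]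
        congr 1
        ring
      have e5 : 0 ≤ (N : ℝ) ^ γ := Real.rpow_nonneg hNp.le _
      have e6 := mul_le_mul_of_nonneg_right e3 e5
      rw [← e4] at e6
      linarith
    calc ((R : ℕ) : ℝ) * ∑ i ∈ s, |(c i : ℝ)|
        ≤ (2 : ℝ) ^ ((N : ℝ) ^ γ' / 2) * (2 : ℝ) ^ ((N : ℝ) ^ γ' / 2) := by
          refine mul_le_mul e1 (hc.trans (Real.rpow_le_rpow_of_exponent_le one_le_two e2))
            (sum_nonneg fun _ _ => abs_nonneg _) (by positivity)
      _ = _ := by
          rw [← Real.rpow_add two_pos]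
          congr 1
          ring
  -- the expansion of the real values
  have hCl : ∀ i ∈ s, ∀ u ∈ (M i).map (ar N), Cl N ((D : ℝ) * N + J) D u := by
    intro i hi u hu
    obtain ⟨v, hv, rfl⟩ := List.mem_map.1 hu
    have e0 : (ar N v).length = v.length := by unfold ar; rw [List.length_map]
    have hvp := ((hM i hi).1 v hv).2
    refine ⟨by rw [e0]; exact hlenu i hi v hv, fun m hm => ?_, fun k hk => ?_⟩
    · unfold ar at hm
      obtain ⟨y, hy, rfl⟩ := List.mem_map.1 hm
      have e1 := hvp y hy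
      have e2 : N ≤ y.1 * N := Nat.le_mul_of_pos_left _ e1.1
      refine ⟨by omega, ?_⟩
      have e3 : y.1 ≤ D := by
        have e4 : y.1 ≤ wt v := List.single_le_sum (by simp) _ (List.mem_map_of_mem hy)
        have e5 : wt v ≤ ((M i).map wt).sum := List.single_le_sum (by simp) _
          (List.mem_map_of_mem hv)
        exact e4.trans (e5.trans (hM i hi).2)
      have e4 : y.1 * N + y.2 ≤ D * N + J := Nat.add_le_add (Nat.mul_le_mul_right _ e3) e1.2
      exact_mod_cast e4
    · cases v with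
      | nil => exact absurd rfl ((hM i hi).1 [] hv).1
      | cons y v =>
        rw [ar_cons, List.head?_cons, Option.mem_def, Option.some.injEq] at hk
        have e1 := (hvp y List.mem_cons_self).1
        have e2 : N ≤ y.1 * N := Nat.le_mul_of_pos_left _ e1
        omega
  have hprod : ∀ {A : Type} [CommRing A] (F : List ℕ → A) (i : ι),
      (((M i).map (ar N)).map F).prod = ((stil ((M i).map (ar N))).map F).sum →
      ((M i).map fun u => F (ar N u)).prod = ((swl (M i)).map fun u => F (ar N u)).sum := by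
    intro A _ F i h
    rw [← swl_ar, List.map_map, List.map_map] at h
    exact h
  have hK0 : (0 : ℝ) ≤ (D : ℝ) * N + J := by positivity
  have hreal := expand s M c (A := ℝ) (fun u => mz (ar N u)) (fun i hi => by
    refine hprod mz i (mz_prod (n := N) (K := (D : ℝ) * N + J) hK0 (r := D) _ (hCl i hi) ?_)
    rw [List.length_map]
    have := hlenM i hi
    have e1 := Nat.mul_le_mul_right D this
    omega)
  have hzero : ∀ v ∈ Wo s M, Co s M c v = 0 := by
    by_contra hcon
    push Not at hcon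
    have g3 := g2 hcon hsize H hH b hb
    rw [← hreal] at g3
    linarith
  refine ⟨hzero, ?_, fun A _ Z hZ => ?_⟩
  · rw [hreal]
    exact sum_eq_zero fun v hv => by rw [hzero v hv, Int.cast_zero, zero_mul]
  · have e1 : ∀ i ∈ s, (c i : A) * ((M i).map fun u => Z (ar N u)).prod =
        (c i : A) * ((M i).map fun u => ex Z (ar N u)).prod := by
      intro i hi
      congr 2
      refine List.map_congr_left fun u hu => ?_
      rw [ex_ne Z]
      intro h
      unfold ar at h
      exact ((hM i hi).1 u hu).1 (List.map_eq_nil_iff.1 h)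
    rw [sum_congr rfl e1, expand s M c (A := A) (fun u => ex Z (ar N u)) (fun i hi =>
      hprod (ex Z) i (prod_ex hZ (n := N) (by omega) (K := (D : ℝ) * N + J) hK0 (r := D) _
        (hCl i hi)))]
    exact sum_eq_zero fun v hv => by rw [hzero v hv, Int.cast_zero, zero_mul]

end Pool.Agent.R404.WZ
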