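import Pool.Agent.R404.WZ.Q

/-!
# Relations in rings with a homomorphism to the complex numbers
-/

set_option autoImplicit false

namespace Pool.Agent.R404.WZ

open Finset
open Pool.Agent.Y760.ZG (mz)
open Pool.Agent.Y777.AM (ht)
open Pool.Agent.Y760.ZF (sti stil)
open Pool.Agent.Y777.AM.St (Ad)

/-- **small relations between lifts** -/
theorem expansionsC (D : ℕ) (θ γ ε κ C : ℝ) (hθ : 0 < θ) (hθD : (D + 1) * θ < 1)
    (hγ : γ + D * θ < 1) (hε : D * θ < ε) :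
    ∃ N0 : ℕ, ∀ N : ℕ, N0 ≤ N → ∀ J : ℕ, (J : ℝ) ≤ (N : ℝ) ^ θ →
      ∀ (A : Type) [CommRing A] (Z : List ℕ → A) (p : A →+* ℂ),
        (∀ u, Ad u → p (Z u) = (mz u : ℂ)) →
      ∀ T : Finset (List Wd),
      (∀ M ∈ T, (∀ u ∈ M, u ≠ [] ∧ ∀ y ∈ u, 1 ≤ y.1 ∧ y.2 ≤ J) ∧ (M.map wt).sum ≤ D) →
      ∀ c : List Wd → ℤ, ∑ M ∈ T, |(c M : ℝ)| ≤ (2 : ℝ) ^ ((N : ℝ) ^ γ) →
      ∀ H : Finset (List ℕ), (∀ h ∈ H, Ad h ∧ (∀ m ∈ h, 1 ≤ m) ∧ (∀ x ∈ h.head?, 2 ≤ x) ∧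
        (h.sum : ℝ) ≤ κ * N ∧ ε * N ≤ ht h) → ∀ b : List ℕ → ℤ,
      (∀ h ∈ H, |(b h : ℝ)| ≤ C ^ N) →
      ∑ M ∈ T, (c M : A) * (M.map fun u => Z (ar N u)).prod = ∑ h ∈ H, (b h : A) * Z h →
      ∀ u : List ℕ, ∑ M ∈ T, c M * ((stil (M.map (ar N))).count u : ℤ) = 0 := by
  obtain ⟨N0, h0⟩ := expansions D θ γ ε κ C hθ hθD hγ hε
  refine ⟨max N0 2, fun N hN J hJ A _ Z p hp T hT c hc H hH b hb hrel => ?_⟩
  have hN2 : 2 ≤ N := by omega
  refine h0 N (by omega) J hJ T hT c hc H (fun h hh => (hH h hh).2) (fun h => (b h : ℝ)) hb ?_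
  have e1 := congrArg p hrel
  rw [map_sum, map_sum] at e1
  have e2 : ∑ M ∈ T, p ((c M : A) * (M.map fun u => Z (ar N u)).prod) =
      ((∑ M ∈ T, (c M : ℝ) * (M.map fun u => mz (ar N u)).prod : ℝ) : ℂ) := by
    push_cast
    refine Finset.sum_congr rfl fun M hM => ?_
    rw [map_mul, map_intCast, map_list_prod, List.map_map]
    congr 1
    have e3 : ∀ L : List Wd, ((L.map fun w => mz (ar N w)).prod : ℝ) = ((L.map fun w =>
        ((mz (ar N w) : ℝ) : ℂ)).prod : ℂ) := by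
      intro L
      induction L with
      | nil => simp
      | cons a L ih => rw [List.map_cons, List.prod_cons, List.map_cons, List.prod_cons, ← ih]; simp
    rw [e3]
    congr 1
    refine List.map_congr_left fun w hw => ?_
    rw [Function.comp_apply]
    exact hp _ (Ad_ar hN2 ((hT M hM).1 w hw))
  have e4 : ∑ h ∈ H, p ((b h : A) * Z h) = ((∑ h ∈ H, (b h : ℝ) * mz h : ℝ) : ℂ) := by
    push_cast
    refine Finset.sum_congr rfl fun h hh => ?_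
    rw [map_mul, map_intCast, hp h (hH h hh).1]
  rw [e2, e4] at e1
  have e5 : ∑ M ∈ T, (c M : ℝ) * (M.map fun u => mz (ar N u)).prod =
      ∑ h ∈ H, (b h : ℝ) * mz h := Complex.ofReal_injective e1
  rw [e5, sub_self, abs_zero]
  positivity

end Pool.Agent.R404.WZ
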