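import Pool.Agent.R404.WZ.N

/-!
# Double zeta values with nearly equal arguments
-/

set_option autoImplicit false

namespace Pool.Agent.R404.WZ

open Finset
open Pool.Agent.R404.MZ (rpow_large)
open Pool.Agent.Y760.ZG (mz)
open Pool.Agent.Y777.AM (ht)

/-- the middle arguments -/
noncomputable def mid (k : ℕ) (t : ℝ) : Finset ℕ :=
  (Finset.range (k + 1)).filter fun p => |2 * (p : ℝ) - k| ≤ (k : ℝ) ^ t

theorem middle (t g e : ℝ) (ht0 : 0 < t) (ht3 : 3 * t < 1) (hg : g + 2 * t < 1) (he : t < e) :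
    ∃ k0 : ℕ, ∀ k : ℕ, k0 ≤ k → ∀ c : ℕ → ℤ, (∃ p ∈ mid k t, c p ≠ 0) →
      (∀ p ∈ mid k t, |(c p : ℝ)| ≤ (2 : ℝ) ^ ((k : ℝ) ^ g)) →
      ((k : ℝ) ^ (e * k))⁻¹ < |∑ p ∈ mid k t, (c p : ℝ) * mz [p, k - p]| := by
  classical
  obtain ⟨θ, hθ1, hθ2⟩ := exists_between (lt_min (lt_min (by linarith : t < 1 / 3)
    (by linarith : t < (1 - g) / 2)) he)
  rw [lt_min_iff, lt_min_iff] at hθ2
  obtain ⟨⟨hθ3, hθ4⟩, hθ5⟩ := hθ2
  obtain ⟨g2, hg2, hg3⟩ := exists_between (max_lt (by linarith : g < 1 - 2 * θ)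
    (by linarith : (0 : ℝ) < 1 - 2 * θ))
  rw [max_lt_iff] at hg2
  obtain ⟨g1, hg1, hg12⟩ := exists_between (max_lt hg2.1 hg2.2)
  rw [max_lt_iff] at hg1
  obtain ⟨N0, h0⟩ := asyW 2 θ g2 (2 * e) 0 0 (by linarith) (by push_cast; linarith)
    (by push_cast; linarith) (by push_cast; linarith)
  obtain ⟨k1, h1⟩ := rpow_large (e := θ - t) (by linarith) (16 : ℝ)
  obtain ⟨k2, h2⟩ := rpow_large (e := 1 - t) (by linarith) (4 : ℝ)
  obtain ⟨k3, h3⟩ := rpow_large (e := g2 - g1) (by linarith) (4 : ℝ)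
  obtain ⟨k4, h4⟩ := rpow_large (e := g1 - g) (by linarith [hg1.1]) (2 : ℝ)
  obtain ⟨k5, h5⟩ := log_large hg1.2 (2 * (5 * 1)) (2 * (1 / Real.log 2))
  refine ⟨max (max (max k1 k2) (max k3 k4)) (max k5 (4 * N0 + 8)), fun k hk c hc hcb => ?_⟩
  have f1 := h1 k (by omega)
  have f2 := h2 k (by omega)
  have f3 := h3 k (by omega)
  have f4 := h4 k (by omega)
  have f5 := h5 k (by omega)
  have hk8 : 8 ≤ k := by omega
  have hk8r : (8 : ℝ) ≤ k := by exact_mod_cast hk8
  have hkp : (0 : ℝ) < k := by linarith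
  have hk1 : (1 : ℝ) ≤ k := by linarith
  set Y : ℝ := (k : ℝ) ^ t with hY
  have hY1 : 1 ≤ Y := Real.one_le_rpow hk1 ht0.le
  have hYk : 4 * Y ≤ k := by
    have e1 : (k : ℝ) = (k : ℝ) ^ (1 - t) * Y := by
      rw [hY, ← Real.rpow_add hkp]
      simp
    have e2 := mul_le_mul_of_nonneg_right f2 (by linarith : 0 ≤ Y)
    linarith
  set J0 : ℕ := ⌊Y⌋₊ with hJ0
  have hJ0le : (J0 : ℝ) ≤ Y := Nat.floor_le (by linarith)
  have hJ0k : 4 * J0 ≤ k := by
    have e1 : (4 : ℝ) * J0 ≤ k := by linarith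
    exact_mod_cast e1
  set N : ℕ := (k - J0) / 2 with hN
  set J : ℕ := k - 2 * N with hJ
  have hNk : 2 * N ≤ k - J0 := Nat.mul_div_le _ _
  have hNk2 : k - J0 < 2 * (N + 1) := Nat.lt_mul_div_succ _ (by norm_num)
  have hJle : J ≤ J0 + 1 := by omega
  have hN4 : k ≤ 4 * N := by omega
  have hN0 : N0 ≤ N := by omega
  have hN1 : 2 ≤ N := by omega
  have hNr : (2 : ℝ) ≤ N := by exact_mod_cast hN1
  have hNp : (0 : ℝ) < N := by linarith
  have hkN : (k : ℝ) / 4 ≤ N := by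
    have : (k : ℝ) ≤ 4 * N := by exact_mod_cast hN4
    linarith
  have hNkr : 2 * (N : ℝ) ≤ k := by
    have : 2 * N ≤ k := by omega
    exact_mod_cast this
  have hpow : ∀ x : ℝ, 0 ≤ x → x ≤ 1 → (k : ℝ) ^ x / 4 ≤ (N : ℝ) ^ x := by
    intro x hx0 hx1
    refine le_trans ?_ (Real.rpow_le_rpow (by positivity) hkN hx0)
    rw [Real.div_rpow hkp.le (by norm_num)]
    refine div_le_div_of_nonneg_left (by positivity) (by positivity) ?_
    calc (4 : ℝ) ^ x ≤ (4 : ℝ) ^ (1 : ℝ) := Real.rpow_le_rpow_of_exponent_le (by norm_num) hx1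
      _ = 4 := Real.rpow_one _
  have hJθ : (J : ℝ) ≤ (N : ℝ) ^ θ := by
    refine le_trans ?_ (hpow θ (by linarith) (by linarith))
    have e1 : (J : ℝ) ≤ J0 + 1 := by exact_mod_cast hJle
    have e2 : (k : ℝ) ^ θ = (k : ℝ) ^ (θ - t) * Y := by
      rw [hY, ← Real.rpow_add hkp]
      congr 1
      ring
    have e3 := mul_le_mul_of_nonneg_right f1 (by linarith : 0 ≤ Y)
    rw [le_div_iff₀ (by norm_num), e2]
    linarith
  -- the arguments
  have hmid : ∀ p ∈ mid k t, N ≤ p ∧ p ≤ k ∧ N ≤ k - p := by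
    intro p hp
    unfold mid at hp
    rw [Finset.mem_filter, Finset.mem_range] at hp
    obtain ⟨hp1, hp2⟩ := hp
    rw [abs_le] at hp2
    have hJ0lt : Y < J0 + 1 := Nat.lt_floor_add_one Y
    have e1 : (k : ℝ) < 2 * p + (J0 + 1) := by linarith
    have e2 : 2 * (p : ℝ) < k + (J0 + 1) := by linarith
    have e3 : k < 2 * p + (J0 + 1) := by exact_mod_cast e1
    have e4 : 2 * p < k + (J0 + 1) := by exact_mod_cast e2
    omega
  set wd2 : ℕ → Wd := fun p => [(1, p - N), (1, k - p - N)] with hwd2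
  have harw : ∀ p ∈ mid k t, ar N (wd2 p) = [p, k - p] := by
    intro p hp
    obtain ⟨a1, a2, a3⟩ := hmid p hp
    rw [hwd2]
    unfold ar
    simp only [List.map_cons, List.map_nil, one_mul]
    rw [Nat.add_sub_cancel' a1, Nat.add_sub_cancel' a3]
  have hinj : ∀ p ∈ mid k t, ∀ q ∈ mid k t, wd2 p = wd2 q → p = q := by
    intro p hp q hq h
    have e1 := congrArg (ar N) h
    rw [harw p hp, harw q hq] at e1
    exact (List.cons.inj e1).1
  set c' : Wd → ℤ := fun w => c ((w.getD 0 (0, 0)).2 + N) with hc'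
  have hcw : ∀ p ∈ mid k t, c' (wd2 p) = c p := by
    intro p hp
    obtain ⟨a1, a2, a3⟩ := hmid p hp
    rw [hc', hwd2]
    simp only [List.getD_cons_zero]
    rw [Nat.sub_add_cancel a1]
  have hsum : ∀ G : ℤ → Wd → ℝ, ∑ w ∈ (mid k t).image wd2, G (c' w) w =
      ∑ p ∈ mid k t, G (c p) (wd2 p) := by
    intro G
    rw [Finset.sum_image hinj]
    exact Finset.sum_congr rfl fun p hp => by rw [hcw p hp]
  have hmain := h0 N hN0 J hJθ ((mid k t).image wd2) (by
      intro w hw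
      obtain ⟨p, hp, rfl⟩ := Finset.mem_image.1 hw
      obtain ⟨a1, a2, a3⟩ := hmid p hp
      refine ⟨fun y hy => ?_, by rw [hwd2]; simp [wt]⟩
      rw [hwd2] at hy
      simp only [List.mem_cons, List.not_mem_nil, or_false] at hy
      rcases hy with rfl | rfl
      · exact ⟨le_refl 1, by simp only; omega⟩
      · exact ⟨le_refl 1, by simp only; omega⟩) c' (by
      obtain ⟨p, hp, h⟩ := hc
      exact ⟨wd2 p, Finset.mem_image_of_mem _ hp, by rwa [hcw p hp]⟩) (by
      rw [hsum (fun z _ => |(z : ℝ)|)]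
      have e1 : ∑ p ∈ mid k t, |(c p : ℝ)| ≤ (2 * k) * (2 : ℝ) ^ ((k : ℝ) ^ g) := by
        calc ∑ p ∈ mid k t, |(c p : ℝ)| ≤ ∑ _p ∈ mid k t, (2 : ℝ) ^ ((k : ℝ) ^ g) :=
              Finset.sum_le_sum hcb
          _ = (mid k t).card * (2 : ℝ) ^ ((k : ℝ) ^ g) := by rw [Finset.sum_const, nsmul_eq_mul]
          _ ≤ _ := by
              refine mul_le_mul_of_nonneg_right ?_ (by positivity)
              have a1 : (mid k t).card ≤ k + 1 := by
                unfold mid
                exact (Finset.card_filter_le _ _).trans (Finset.card_range _).le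
              have a2 : ((mid k t).card : ℝ) ≤ k + 1 := by exact_mod_cast a1
              linarith
      refine e1.trans ?_
      have hl2 : 0 < Real.log 2 := Real.log_pos (by norm_num)
      have e3 : 2 * (k : ℝ) ≤ (2 : ℝ) ^ ((k : ℝ) ^ g1 / 2) := by
        have e4 : (k : ℝ) = (2 : ℝ) ^ (Real.log k / Real.log 2) := by
          rw [Real.rpow_def_of_pos two_pos, mul_div_cancel₀ _ hl2.ne', Real.exp_log hkp]
        calc 2 * (k : ℝ) ≤ (2 : ℝ) ^ (5 : ℝ) * (2 : ℝ) ^ (Real.log k / Real.log 2) := by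
              rw [← e4]
              refine mul_le_mul_of_nonneg_right ?_ hkp.le
              norm_num
          _ = (2 : ℝ) ^ (5 + Real.log k / Real.log 2) := by rw [← Real.rpow_add two_pos]
          _ ≤ _ := by
              refine Real.rpow_le_rpow_of_exponent_le one_le_two ?_
              have e5 : 2 * (1 / Real.log 2) * Real.log k = 2 * (Real.log k / Real.log 2) := by
                ring
              rw [e5] at f5
              linarith
      have e6 : (k : ℝ) ^ g ≤ (k : ℝ) ^ g1 / 2 := by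
        have e4 : (k : ℝ) ^ g1 = (k : ℝ) ^ (g1 - g) * (k : ℝ) ^ g := by
          rw [← Real.rpow_add hkp]
          congr 1
          ring
        have e5 : 0 ≤ (k : ℝ) ^ g := Real.rpow_nonneg hkp.le _
        have e6 := mul_le_mul_of_nonneg_right f4 e5
        rw [← e4] at e6
        linarith
      have e7 : (k : ℝ) ^ g1 ≤ (N : ℝ) ^ g2 := by
        refine le_trans ?_ (hpow g2 hg2.2.le (by linarith))
        have e4 : (k : ℝ) ^ g2 = (k : ℝ) ^ (g2 - g1) * (k : ℝ) ^ g1 := by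
          rw [← Real.rpow_add hkp]
          congr 1
          ring
        have e5 : 0 ≤ (k : ℝ) ^ g1 := Real.rpow_nonneg hkp.le _
        have e6 := mul_le_mul_of_nonneg_right f3 e5
        rw [← e4] at e6
        linarith
      calc 2 * (k : ℝ) * (2 : ℝ) ^ ((k : ℝ) ^ g)
          ≤ (2 : ℝ) ^ ((k : ℝ) ^ g1 / 2) * (2 : ℝ) ^ ((k : ℝ) ^ g1 / 2) :=
            mul_le_mul e3 (Real.rpow_le_rpow_of_exponent_le one_le_two e6) (by positivity)
              (by positivity)
        _ = (2 : ℝ) ^ ((k : ℝ) ^ g1) := by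
            rw [← Real.rpow_add two_pos]
            congr 1
            ring
        _ ≤ _ := Real.rpow_le_rpow_of_exponent_le one_le_two e7) ∅ (by simp) (fun _ => 0) (by simp)
  rw [Finset.sum_empty, sub_zero, hsum (fun z w => (z : ℝ) * mz (ar N w))] at hmain
  have e8 : ∑ p ∈ mid k t, (c p : ℝ) * mz (ar N (wd2 p)) =
      ∑ p ∈ mid k t, (c p : ℝ) * mz [p, k - p] :=
    Finset.sum_congr rfl fun p hp => by rw [harw p hp]
  rw [e8] at hmain
  refine lt_of_le_of_lt ?_ hmain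
  refine inv_anti₀ (Real.rpow_pos_of_pos hNp _) ?_
  have he0 : 0 < e := ht0.trans he
  calc (N : ℝ) ^ (2 * e * N) ≤ (k : ℝ) ^ (2 * e * N) :=
        Real.rpow_le_rpow hNp.le (by linarith) (by positivity)
    _ ≤ (k : ℝ) ^ (e * k) := by
        refine Real.rpow_le_rpow_of_exponent_le hk1 ?_
        nlinarith

end Pool.Agent.R404.WZ
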